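import Pool.Agent.K3h15.RG.Stm

/-!
# Brick DDL: divided differences and Dunkl's Laplacian
-/

set_option autoImplicit false

namespace Pool.Agent.K3h15.RG

open MvPolynomial

open Pool.Agent.K3h15.DM (Rx)

namespace DDL

variable {n : ℕ}

/-- the derivative in the direction `w` -/
noncomputable def Dw (w : Fin n → ℝ) (p : Rx n) : Rx n := ∑ j, C ((w j : ℝ) : ℂ) * pderiv j p

lemma Dw_add (w : Fin n → ℝ) (p q : Rx n) : Dw w (p + q) = Dw w p + Dw w q := by
  unfold Dw
  rw [← Finset.sum_add_distrib]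
  exact Finset.sum_congr rfl fun j _ => by rw [map_add, mul_add]

lemma Dw_sub (w : Fin n → ℝ) (p q : Rx n) : Dw w (p - q) = Dw w p - Dw w q := by
  unfold Dw
  rw [← Finset.sum_sub_distrib]
  exact Finset.sum_congr rfl fun j _ => by rw [map_sub, mul_sub]

lemma Dw_mul (w : Fin n → ℝ) (p q : Rx n) : Dw w (p * q) = Dw w p * q + p * Dw w q := by
  unfold Dw
  rw [Finset.sum_mul, Finset.mul_sum, ← Finset.sum_add_distrib]
  exact Finset.sum_congr rfl fun j _ => by rw [pderiv_mul]; ring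

lemma Dw_C (w : Fin n → ℝ) (a : ℂ) : Dw w (C a) = 0 := by
  unfold Dw
  exact Finset.sum_eq_zero fun j _ => by rw [pderiv_C, mul_zero]

lemma Dw_sum {α : Type} (w : Fin n → ℝ) (s : Finset α) (f : α → Rx n) :
    Dw w (∑ a ∈ s, f a) = ∑ a ∈ s, Dw w (f a) := by
  unfold Dw
  rw [Finset.sum_comm]
  exact Finset.sum_congr rfl fun j _ => by rw [map_sum, Finset.mul_sum]

lemma Dw_C_mul (w : Fin n → ℝ) (a : ℂ) (p : Rx n) : Dw w (C a * p) = C a * Dw w p := by
  rw [Dw_mul, Dw_C, zero_mul, zero_add]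

lemma Dw_X (w : Fin n → ℝ) (k : Fin n) : Dw w (X k) = C ((w k : ℝ) : ℂ) := by
  unfold Dw
  rw [Finset.sum_eq_single k]
  · rw [pderiv_X_self, mul_one]
  · intro b _ hb
    rw [pderiv_X_of_ne (Ne.symm hb), mul_zero]
  · intro h; exact absurd (Finset.mem_univ k) h

lemma pderiv_lf (v : Fin n → ℝ) (j : Fin n) : pderiv j (lf v) = C ((v j : ℝ) : ℂ) := by
  unfold lf
  rw [map_sum, Finset.sum_eq_single j]
  · rw [pderiv_mul, pderiv_C, zero_mul, zero_add, pderiv_X_self, mul_one]
  · intro b _ hb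
    rw [pderiv_mul, pderiv_C, zero_mul, zero_add, pderiv_X_of_ne hb, mul_zero]
  · intro h; exact absurd (Finset.mem_univ j) h

lemma Dw_lf (w v : Fin n → ℝ) : Dw w (lf v) = C ((∑ j, v j * w j : ℝ) : ℂ) := by
  unfold Dw
  rw [Complex.ofReal_sum, map_sum]
  refine Finset.sum_congr rfl fun j _ => ?_
  rw [pderiv_lf, ← C_mul, Complex.ofReal_mul, mul_comm]

lemma rf_X (v : Fin n → ℝ) (k : Fin n) :
    rf v (X k) = X k - C ((2 * v k : ℝ) : ℂ) * lf v := by
  unfold rf
  rw [aeval_X]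

lemma rf_C (v : Fin n → ℝ) (a : ℂ) : rf v (C a) = C a := by
  exact (rf v).commutes a

lemma rf_lf (v w : Fin n → ℝ) : rf v (lf w) = lf (refl v w) := by
  have h1 : rf v (lf w) = ∑ j, (C ((w j : ℝ) : ℂ) * X j - C ((2 * (v j * w j) : ℝ) : ℂ) * lf v) := by
    conv_lhs => unfold lf
    rw [map_sum]
    refine Finset.sum_congr rfl fun j _ => ?_
    rw [map_mul, rf_C, rf_X, mul_sub, ← mul_assoc, ← C_mul]
    congr 3
    push_cast
    ring
  have h2 : lf (refl v w) = ∑ j, (C ((w j : ℝ) : ℂ) * X j -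
      C ((2 * (∑ k, v k * w k) : ℝ) : ℂ) * (C ((v j : ℝ) : ℂ) * X j)) := by
    conv_lhs => unfold lf
    refine Finset.sum_congr rfl fun j _ => ?_
    unfold refl
    rw [← mul_assoc, ← C_mul, ← sub_mul, ← C_sub]
    congr 2
    push_cast
    ring
  rw [h1, h2, Finset.sum_sub_distrib, Finset.sum_sub_distrib, ← Finset.mul_sum, ← Finset.sum_mul]
  congr 2
  rw [← map_sum, ← Complex.ofReal_sum, ← Finset.mul_sum]

lemma refl_self {v : Fin n → ℝ} (hv : ∑ j, v j ^ 2 = 1) : refl v v = -v := by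
  have h : ∑ k, v k * v k = 1 := by
    rw [← hv]; exact Finset.sum_congr rfl fun j _ => by ring
  funext j
  unfold refl
  rw [h, Pi.neg_apply]
  ring

lemma refl_refl {v : Fin n → ℝ} (hv : ∑ j, v j ^ 2 = 1) (w : Fin n → ℝ) :
    refl v (refl v w) = w := by
  have h : ∑ k, v k * v k = 1 := by
    rw [← hv]; exact Finset.sum_congr rfl fun j _ => by ring
  have h2 : ∑ k, v k * refl v w k = - ∑ k, v k * w k := by
    have : ∀ k, v k * refl v w k = v k * w k - 2 * (∑ k, v k * w k) * (v k * v k) := by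
      intro k; unfold refl; ring
    rw [Finset.sum_congr rfl fun k _ => this k, Finset.sum_sub_distrib, ← Finset.mul_sum, h]
    ring
  funext j
  show refl v w j - 2 * (∑ k, v k * refl v w k) * v j = w j
  rw [h2]
  unfold refl
  ring

lemma refl_neg (v w : Fin n → ℝ) : refl v (-w) = - refl v w := by
  funext j
  unfold refl
  simp only [Pi.neg_apply, mul_neg, Finset.sum_neg_distrib]
  ring

lemma lf_neg (v : Fin n → ℝ) : lf (-v) = - lf v := by
  unfold lf
  rw [← Finset.sum_neg_distrib]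
  refine Finset.sum_congr rfl fun j _ => ?_
  simp

lemma Dw_neg (v : Fin n → ℝ) (p : Rx n) : Dw (-v) p = - Dw v p := by
  unfold Dw
  rw [← Finset.sum_neg_distrib]
  refine Finset.sum_congr rfl fun j _ => ?_
  simp

lemma lf_ne {v : Fin n → ℝ} (hv : ∑ j, v j ^ 2 = 1) : lf v ≠ 0 := by
  intro h
  have h1 := congrArg (eval fun j => ((v j : ℝ) : ℂ)) h
  unfold lf at h1
  rw [map_sum, map_zero] at h1
  have h2 : ∑ j, (eval fun j => ((v j : ℝ) : ℂ)) (C ((v j : ℝ) : ℂ) * X j) =
      ((∑ j, v j ^ 2 : ℝ) : ℂ) := by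
    rw [Complex.ofReal_sum]
    refine Finset.sum_congr rfl fun j _ => ?_
    rw [map_mul, eval_C, eval_X]
    push_cast
    ring
  rw [h2, hv] at h1
  simp at h1

/-- the reflection and the partial derivatives -/
lemma rf_pderiv {v : Fin n → ℝ} (hv : ∑ j, v j ^ 2 = 1) (j : Fin n) (q : Rx n) :
    rf v (pderiv j q) = pderiv j (rf v q) - C ((2 * v j : ℝ) : ℂ) * Dw v (rf v q) := by
  induction q using MvPolynomial.induction_on with
  | C a => rw [rf_C, pderiv_C, Dw_C, map_zero, mul_zero, sub_zero]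
  | add p q hp hq =>
    rw [map_add, map_add, hp, hq, map_add, map_add, Dw_add]
    ring
  | mul_X p k hp =>
    have h1 : pderiv j (rf v (X k)) - C ((2 * v j : ℝ) : ℂ) * Dw v (rf v (X k)) =
        rf v (pderiv j (X k)) := by
      rw [rf_X, map_sub, pderiv_mul, pderiv_C, zero_mul, zero_add, pderiv_lf, Dw_sub, Dw_X,
        Dw_mul, Dw_C, zero_mul, zero_add, Dw_lf]
      have h : ∑ k, v k * v k = 1 := by
        rw [← hv]; exact Finset.sum_congr rfl fun j _ => by ring
      rw [h]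
      have h3 : rf v (pderiv j (X k : Rx n)) = pderiv j (X k : Rx n) := by
        by_cases hjk : k = j
        · subst hjk; rw [pderiv_X_self, map_one]
        · rw [pderiv_X_of_ne hjk, map_zero]
      rw [h3]
      simp only [Complex.ofReal_mul, Complex.ofReal_ofNat, Complex.ofReal_one, C_mul, C_1]
      have h4 : (C (2 : ℂ) : Rx n) = 2 := by
        rw [show (2 : ℂ) = ((2 : ℕ) : ℂ) by norm_num]
        rw [map_natCast]; norm_num
      rw [h4]
      ring
    rw [pderiv_mul, map_add, map_mul, map_mul, hp, map_mul, pderiv_mul, Dw_mul, ← h1]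
    ring

lemma rf_Dw {v : Fin n → ℝ} (hv : ∑ j, v j ^ 2 = 1) (w : Fin n → ℝ) (q : Rx n) :
    rf v (Dw w q) = Dw (refl v w) (rf v q) := by
  have h1 : rf v (Dw w q) = ∑ j, (C ((w j : ℝ) : ℂ) * pderiv j (rf v q) -
      C ((2 * (v j * w j) : ℝ) : ℂ) * Dw v (rf v q)) := by
    conv_lhs => unfold Dw
    rw [map_sum]
    refine Finset.sum_congr rfl fun j _ => ?_
    rw [map_mul, rf_C, rf_pderiv hv, mul_sub, ← mul_assoc, ← C_mul]
    congr 3
    push_cast
    ring
  have h2 : Dw (refl v w) (rf v q) = ∑ j, (C ((w j : ℝ) : ℂ) * pderiv j (rf v q) -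
      C ((2 * (∑ k, v k * w k) : ℝ) : ℂ) * (C ((v j : ℝ) : ℂ) * pderiv j (rf v q))) := by
    conv_lhs => unfold Dw
    refine Finset.sum_congr rfl fun j _ => ?_
    unfold refl
    rw [← mul_assoc, ← C_mul, ← sub_mul, ← C_sub]
    congr 2
    push_cast
    ring
  rw [h1, h2, Finset.sum_sub_distrib, Finset.sum_sub_distrib, ← Finset.mul_sum, ← Finset.sum_mul]
  congr 2
  rw [← map_sum, ← Complex.ofReal_sum, ← Finset.mul_sum]

lemma sub_rf_dvd (v : Fin n → ℝ) (p : Rx n) : lf v ∣ p - rf v p := by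
  induction p using MvPolynomial.induction_on with
  | C a => rw [rf_C, sub_self]; exact dvd_zero _
  | add p q hp hq =>
    rw [map_add]
    have := dvd_add hp hq
    convert this using 1
    ring
  | mul_X p k hp =>
    rw [map_mul]
    have h2 : lf v ∣ X k - rf v (X k) := by
      rw [rf_X]
      exact ⟨C ((2 * v k : ℝ) : ℂ), by ring⟩
    have h3 : p * X k - rf v p * rf v (X k) =
        (p - rf v p) * X k + rf v p * (X k - rf v (X k)) := by ring
    rw [h3]
    exact dvd_add (hp.mul_right _) (h2.mul_left _)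

lemma exists_DD {v : Fin n → ℝ} (hv : ∑ j, v j ^ 2 = 1) : ∃ D : Rx n →ₗ[ℂ] Rx n, ∀ p,
    lf v * D p = p - rf v p := by
  choose D hD using fun p : Rx n => sub_rf_dvd v p
  refine ⟨{ toFun := D, map_add' := ?_, map_smul' := ?_ }, fun p => (hD p).symm⟩
  · intro p q
    apply mul_left_cancel₀ (lf_ne hv)
    rw [← hD, mul_add, ← hD, ← hD, map_add]
    ring
  · intro c p
    apply mul_left_cancel₀ (lf_ne hv)
    rw [← hD, RingHom.id_apply, mul_smul_comm, ← hD, map_smul, smul_sub]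

/-- the Laplacian commutes with reflections -/
lemma rf_lap {v : Fin n → ℝ} (hv : ∑ j, v j ^ 2 = 1) {p : Rx n} (hp : rf v p = p) :
    rf v (∑ j, pderiv j (pderiv j p)) = ∑ j, pderiv j (pderiv j p) := by
  have h : ∑ k, v k * v k = 1 := by
    rw [← hv]; exact Finset.sum_congr rfl fun j _ => by ring
  have h1 : ∀ j, rf v (pderiv j (pderiv j p)) = pderiv j (pderiv j p) -
      2 * (C ((v j : ℝ) : ℂ) * pderiv j (Dw v p)) - 2 * (C ((v j : ℝ) : ℂ) * Dw v (pderiv j p)) +
      (4 * C ((v j * v j : ℝ) : ℂ)) * Dw v (Dw v p) := by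
    intro j
    rw [rf_pderiv hv, rf_pderiv hv, hp, map_sub, pderiv_mul, pderiv_C, zero_mul, zero_add,
      Dw_sub, Dw_C_mul]
    simp only [Complex.ofReal_mul, Complex.ofReal_ofNat, C_mul]
    have h4 : (C (2 : ℂ) : Rx n) = 2 := by
      rw [show (2 : ℂ) = ((2 : ℕ) : ℂ) by norm_num]
      rw [map_natCast]; norm_num
    rw [h4]
    ring
  rw [map_sum, Finset.sum_congr rfl fun j _ => h1 j, Finset.sum_add_distrib,
    Finset.sum_sub_distrib, Finset.sum_sub_distrib, ← Finset.mul_sum, ← Finset.mul_sum,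
    ← Finset.sum_mul, ← Finset.mul_sum]
  have h2 : ∑ j, C ((v j : ℝ) : ℂ) * pderiv j (Dw v p) = Dw v (Dw v p) := rfl
  have h3 : ∑ j, C ((v j : ℝ) : ℂ) * Dw v (pderiv j p) = Dw v (Dw v p) := by
    conv_rhs => enter [2]; unfold Dw
    rw [Dw_sum]
    exact Finset.sum_congr rfl fun j _ => by rw [Dw_C_mul]
  have h4 : ∑ j, (C ((v j * v j : ℝ) : ℂ) : Rx n) = 1 := by
    rw [← map_sum, ← Complex.ofReal_sum, h, Complex.ofReal_one, C_1]
  rw [h2, h3, h4]
  ring

section

variable {ι : Type} [Fintype ι] {v : ι → Fin n → ℝ}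

/-- the action of a reflection on the positive roots, up to signs -/
lemma exists_sig (hv : IsRoots v) (m : ι) : ∃ σ : Equiv.Perm ι,
    ∀ i, refl (v m) (v i) = v (σ i) ∨ refl (v m) (v i) = -v (σ i) := by
  obtain ⟨h1, h2, h3⟩ := hv
  choose s hs using h3 m
  have hinj : Function.Injective s := by
    intro i k hik
    apply h2
    have e1 := hs i
    have e2 := hs k
    rw [← hik] at e2
    have r1 := refl_refl (h1 m) (v i)
    have r2 := refl_refl (h1 m) (v k)
    rcases e1 with e1 | e1 <;> rcases e2 with e2 | e2 <;> rw [e1] at r1 <;> rw [e2] at r2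
    · left; rw [← r1, ← r2]
    · right; rw [← r1, ← r2, refl_neg, neg_neg]
    · right; rw [← r1, ← r2, refl_neg]
    · left; rw [← r1, ← r2]
  exact ⟨Equiv.ofBijective s (Finite.injective_iff_bijective.mp hinj), fun i => hs i⟩

omit [Fintype ι] in
lemma four (hv : IsRoots v) {DD : ι → (Rx n →ₗ[ℂ] Rx n)} (hDD : IsDD v DD) (i : ι) {p : Rx n}
    (hp : Inv v p) : lf (v i) * DD i (Dw (v i) p) = 2 * Dw (v i) p := by
  rw [hDD, rf_Dw (hv.1 i), hp i, refl_self (hv.1 i), Dw_neg]
  ring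

lemma inv_L (hv : IsRoots v) {DD : ι → (Rx n →ₗ[ℂ] Rx n)} (hDD : IsDD v DD) {κ : ι → ℂ}
    (hκ : Orb v κ) {p : Rx n} (hp : Inv v p) : Inv v (L v DD κ p) := by
  intro m
  obtain ⟨σ, hσ⟩ := exists_sig hv m
  have hkey : ∀ i, rf (v m) (DD i (Dw (v i) p)) = DD (σ i) (Dw (v (σ i)) p) := by
    intro i
    have h1 := congrArg (rf (v m)) (four hv hDD i hp)
    have h2 := four hv hDD (σ i) hp
    have e2 : rf (v m) (2 : Rx n) = 2 := map_ofNat _ 2
    rw [map_mul, map_mul, rf_lf, rf_Dw (hv.1 m), hp m, e2] at h1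
    rcases hσ i with h | h
    · rw [h, ← h2] at h1
      exact mul_left_cancel₀ (lf_ne (hv.1 (σ i))) h1
    · rw [h, lf_neg, Dw_neg, neg_mul, mul_neg, neg_inj, ← h2] at h1
      exact mul_left_cancel₀ (lf_ne (hv.1 (σ i))) h1
  show rf (v m) (∑ j, pderiv j (pderiv j p) + ∑ i, κ i • DD i (Dw (v i) p)) =
    ∑ j, pderiv j (pderiv j p) + ∑ i, κ i • DD i (Dw (v i) p)
  rw [map_add, rf_lap (hv.1 m) (hp m), map_sum]
  congr 1
  refine Eq.trans ?_ (Equiv.sum_comp σ fun i => κ i • DD i (Dw (v i) p))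
  refine Finset.sum_congr rfl fun i _ => ?_
  rw [map_smul, hkey, hκ m i (σ i) (hσ i)]

lemma inv_Ev (hv : IsRoots v) {k : ι → ℕ} (hk : Orb v k) : Inv v (Ev v k) := by
  intro m
  obtain ⟨σ, hσ⟩ := exists_sig hv m
  unfold Ev
  rw [map_prod]
  refine Eq.trans ?_ (Equiv.prod_comp σ fun i => lf (v i) ^ (2 * k i))
  refine Finset.prod_congr rfl fun i _ => ?_
  have h1 : (rf (v m) (lf (v i))) ^ 2 = lf (v (σ i)) ^ 2 := by
    rw [rf_lf]
    rcases hσ i with h | h
    · rw [h]
    · rw [h, lf_neg, neg_sq]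
  have h2 : k i = k (σ i) := hk m i (σ i) (hσ i)
  calc rf (v m) (lf (v i) ^ (2 * k i)) = ((rf (v m) (lf (v i))) ^ 2) ^ (k i) := by
        rw [map_pow, pow_mul]
    _ = (lf (v (σ i)) ^ 2) ^ (k (σ i)) := by rw [h1, h2]
    _ = lf (v (σ i)) ^ (2 * k (σ i)) := (pow_mul _ _ _).symm

lemma lf_homog (v : Fin n → ℝ) : (lf v).IsHomogeneous 1 := by
  unfold lf
  refine IsHomogeneous.sum _ _ _ fun j _ => ?_
  have := (isHomogeneous_C (Fin n) ((v j : ℝ) : ℂ)).mul (isHomogeneous_X ℂ j)
  rwa [zero_add] at this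

lemma rf_homog (v : Fin n → ℝ) {q : Rx n} {d : ℕ} (hq : q.IsHomogeneous d) :
    (rf v q).IsHomogeneous d := by
  unfold rf
  have h := hq.aeval (fun j => (X j - C ((2 * v j : ℝ) : ℂ) * lf v : Rx n)) (n := 1) (by
    intro j
    refine (isHomogeneous_X ℂ j).sub ?_
    have := (isHomogeneous_C (Fin n) ((2 * v j : ℝ) : ℂ)).mul (lf_homog v)
    rwa [zero_add] at this)
  rwa [one_mul] at h

lemma homog_DD {v : Fin n → ℝ} (hv : ∑ j, v j ^ 2 = 1) {D : Rx n →ₗ[ℂ] Rx n}
    (hD : ∀ p, lf v * D p = p - rf v p) {q : Rx n} {d : ℕ}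
    (hq : q.IsHomogeneous (d + 1)) : (D q).IsHomogeneous d := by
  set r := D q with hr
  have h1 : lf v * r = q - rf v q := hD q
  have h2 : (q - rf v q).IsHomogeneous (d + 1) := hq.sub (rf_homog v hq)
  have hX : (lf v).IsHomogeneous 1 := lf_homog v
  have h3 : homogeneousComponent (d + 1) (lf v * r) = lf v * homogeneousComponent d r := by
    conv_lhs => rw [← sum_homogeneousComponent (φ := r), Finset.mul_sum, map_sum]
    have h4 : ∀ e, homogeneousComponent (d + 1) (lf v * homogeneousComponent e r) =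
        if e = d then lf v * homogeneousComponent d r else 0 := by
      intro e
      have h5 : (lf v * homogeneousComponent e r).IsHomogeneous (1 + e) :=
        hX.mul (homogeneousComponent_isHomogeneous e r)
      rw [homogeneousComponent_of_mem (n := 1 + e) ((mem_homogeneousSubmodule _ _).mpr h5)]
      by_cases hed : e = d
      · subst hed; rw [if_pos (add_comm _ _), if_pos rfl]
      · rw [if_neg (by omega), if_neg hed]
    simp only [h4]
    rw [Finset.sum_ite_eq']
    split_ifs with h6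
    · rfl
    · rw [homogeneousComponent_eq_zero, mul_zero]
      have := Finset.mem_range.not.mp h6
      omega
  have h7 : lf v * r = lf v * homogeneousComponent d r := by
    rw [← h3, h1, homogeneousComponent_of_mem (n := d + 1)
      ((mem_homogeneousSubmodule _ _).mpr h2), if_pos rfl]
  rw [mul_left_cancel₀ (lf_ne hv) h7]
  exact homogeneousComponent_isHomogeneous d r

lemma DD_C {v : Fin n → ℝ} (hv : ∑ j, v j ^ 2 = 1) {D : Rx n →ₗ[ℂ] Rx n}
    (hD : ∀ p, lf v * D p = p - rf v p) (a : ℂ) : D (C a) = 0 := by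
  apply mul_left_cancel₀ (lf_ne hv)
  rw [hD, rf_C, sub_self, mul_zero]

lemma homog_zero {q : Rx n} (hq : q.IsHomogeneous 0) : ∃ a : ℂ, q = C a := by
  rw [← totalDegree_zero_iff_isHomogeneous, totalDegree_eq_zero_iff_eq_C] at hq
  exact ⟨_, hq⟩

lemma Dw_homog (w : Fin n → ℝ) {p : Rx n} {d : ℕ} (hp : p.IsHomogeneous (d + 1)) :
    (Dw w p).IsHomogeneous d := by
  unfold Dw
  refine IsHomogeneous.sum _ _ _ fun j _ => ?_
  have := (isHomogeneous_C (Fin n) ((w j : ℝ) : ℂ)).mul (hp.pderiv (i := j))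
  rwa [zero_add] at this

end

end DDL

open DDL in
theorem t_DDL : StmDDL := by
  intro n ι _ v hv
  refine ⟨?_, ?_⟩
  · choose DD hDD using fun i => exists_DD (hv.1 i)
    exact ⟨DD, fun i p => hDD i p⟩
  · intro DD hDD
    refine ⟨fun κ hκ p hp => inv_L hv hDD hκ hp, ?_, fun k hk => inv_Ev hv hk,
      fun i p hp => four hv hDD i hp⟩
    intro κ p
    refine ⟨?_, ?_⟩
    · intro d hd
      show (∑ j, pderiv j (pderiv j p) + ∑ i, κ i • DD i (Dw (v i) p)).IsHomogeneous d
      refine IsHomogeneous.add (IsHomogeneous.sum _ _ _ fun j _ => ?_)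
        (IsHomogeneous.sum _ _ _ fun i _ => ?_)
      · exact (hd.pderiv (i := j)).pderiv (i := j)
      · rw [smul_eq_C_mul]
        have h5 := homog_DD (hv.1 i) (hDD i) (Dw_homog (v i) hd)
        have := (isHomogeneous_C (Fin n) (κ i)).mul h5
        rwa [zero_add] at this
    · intro d hd hp
      show ∑ j, pderiv j (pderiv j p) + ∑ i, κ i • DD i (Dw (v i) p) = 0
      have h1 : ∀ j, ∃ a : ℂ, pderiv j p = C a := by
        intro j
        have h2 : d = 0 ∨ d = 1 := by omega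
        rcases h2 with h2 | h2
        · subst h2
          obtain ⟨a, ha⟩ := homog_zero hp
          exact ⟨0, by rw [ha, pderiv_C, C_0]⟩
        · subst h2
          exact homog_zero (hp.pderiv (i := j))
      choose a ha using h1
      have h3 : ∑ j, pderiv j (pderiv j p) = 0 :=
        Finset.sum_eq_zero fun j _ => by rw [ha, pderiv_C]
      have h4 : ∑ i, κ i • DD i (Dw (v i) p) = 0 := by
        refine Finset.sum_eq_zero fun i _ => ?_
        have h5 : Dw (v i) p = C (∑ j, ((v i j : ℝ) : ℂ) * a j) := by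
          unfold Dw
          rw [map_sum]
          exact Finset.sum_congr rfl fun j _ => by rw [ha, C_mul]
        rw [h5, DD_C (hv.1 i) (hDD i), smul_zero]
      rw [h3, h4, add_zero]

end Pool.Agent.K3h15.RG
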