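import Pool.Agent.K3h15.RG.Stm
import Mathlib.RingTheory.MvPolynomial.EulerIdentity

/-!
Brick EXP (helper36): the values of the functional on the invariant polynomials.
-/

set_option autoImplicit false

namespace Pool.Agent.K3h15.RG

open MvPolynomial

open Pool.Agent.K3h15.DM (Rx)

namespace ExpAux

variable {n : ℕ} {ι : Type} [Fintype ι]

/-- the derivative in the direction of `v` -/
noncomputable def dv (v : Fin n → ℝ) (p : Rx n) : Rx n := ∑ j, C ((v j : ℝ) : ℂ) * pderiv j p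

theorem pderiv_lf (v : Fin n → ℝ) (j : Fin n) : pderiv j (lf v) = C ((v j : ℝ) : ℂ) := by
  unfold lf
  rw [map_sum, Finset.sum_eq_single j]
  · rw [Derivation.leibniz, pderiv_X_self, pderiv_C]
    simp
  · intro b _ hb
    rw [Derivation.leibniz, pderiv_X_of_ne hb, pderiv_C]
    simp
  · intro h; exact absurd (Finset.mem_univ j) h

theorem W_eq (v : ι → Fin n → ℝ) (k : ι → ℕ) :
    Dl v * Ev v k = ∏ i, lf (v i) ^ (2 * k i + 1) := by
  unfold Dl Ev
  rw [← Finset.prod_mul_distrib]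
  exact Finset.prod_congr rfl fun i _ => by ring

theorem Dl_sq_dvd (v : ι → Fin n → ℝ) (k : ι → ℕ) (hk : ∀ i, 1 ≤ k i) :
    Dl v ^ 2 ∣ Dl v * Ev v k := by
  rw [W_eq]
  unfold Dl
  rw [← Finset.prod_pow]
  exact Finset.prod_dvd_prod_of_dvd _ _ fun i _ => pow_dvd_pow _ (by have := hk i; omega)

theorem half_two : (C (1 / 2 : ℂ) : Rx n) * 2 = 1 := by
  have : (2 : Rx n) = C 2 := (map_ofNat C 2).symm
  rw [this, ← C_mul]
  norm_num

omit [Fintype ι] in
/-- the sum of the products of the derivatives -/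
theorem grad_prod (v : ι → Fin n → ℝ) (DD : ι → (Rx n →ₗ[ℂ] Rx n)) (p : Rx n)
    (h2 : ∀ i, lf (v i) * DD i (dv (v i) p) = 2 * dv (v i) p) (k : ι → ℕ) (s : Finset ι) :
    ∑ j, pderiv j p * pderiv j (∏ i ∈ s, lf (v i) ^ (2 * k i + 1)) =
      (∏ i ∈ s, lf (v i) ^ (2 * k i + 1)) *
        ∑ i ∈ s, ((k i : ℂ) + 1 / 2) • DD i (dv (v i) p) := by
  classical
  induction s using Finset.induction_on with
  | empty => simp
  | insert a s ha ih =>
    rw [Finset.prod_insert ha, Finset.sum_insert ha]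
    have h1 : ∀ j : Fin n, pderiv j p * pderiv j (lf (v a) ^ (2 * k a + 1) *
        ∏ i ∈ s, lf (v i) ^ (2 * k i + 1)) =
        lf (v a) ^ (2 * k a + 1) *
          (pderiv j p * pderiv j (∏ i ∈ s, lf (v i) ^ (2 * k i + 1))) +
        ((2 * k a + 1 : ℕ) : Rx n) * lf (v a) ^ (2 * k a) *
          (∏ i ∈ s, lf (v i) ^ (2 * k i + 1)) * (C ((v a j : ℝ) : ℂ) * pderiv j p) := by
      intro j
      rw [Derivation.leibniz, Derivation.leibniz_pow, pderiv_lf, Nat.add_sub_cancel]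
      simp only [nsmul_eq_mul, smul_eq_mul]
      ring
    rw [Finset.sum_congr rfl fun j _ => h1 j, Finset.sum_add_distrib, ← Finset.mul_sum,
      ← Finset.mul_sum, ih]
    have h3 := h2 a
    have h4 : ∑ j, C ((v a j : ℝ) : ℂ) * pderiv j p = dv (v a) p := rfl
    rw [h4, smul_eq_C_mul]
    have e1 : (C ((k a : ℂ) + 1 / 2) : Rx n) = (k a : Rx n) + C (1 / 2 : ℂ) := by
      rw [C_add]; simp
    rw [e1]
    push_cast
    have e3 := half_two (n := n)
    linear_combination (-(k a : Rx n) - C (1 / 2 : ℂ)) * lf (v a) ^ (2 * k a) *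
      (∏ i ∈ s, lf (v i) ^ (2 * k i + 1)) * h3 - lf (v a) ^ (2 * k a) *
      (∏ i ∈ s, lf (v i) ^ (2 * k i + 1)) * dv (v a) p * e3

/-- the sum of the derivatives -/
theorem sum_pderiv (v : ι → Fin n → ℝ) (DD : ι → (Rx n →ₗ[ℂ] Rx n)) (p : Rx n)
    (h2 : ∀ i, lf (v i) * DD i (dv (v i) p) = 2 * dv (v i) p) (k : ι → ℕ) :
    ∑ j, pderiv j (pderiv j p * (Dl v * Ev v k)) =
      Dl v * Ev v k * L v DD (fun i => (k i : ℂ) + 1 / 2) p := by
  have h1 : ∀ j : Fin n, pderiv j (pderiv j p * (Dl v * Ev v k)) =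
      Dl v * Ev v k * pderiv j (pderiv j p) + pderiv j p * pderiv j (Dl v * Ev v k) := by
    intro j
    rw [Derivation.leibniz]
    simp only [smul_eq_mul]
    ring
  rw [Finset.sum_congr rfl fun j _ => h1 j, Finset.sum_add_distrib, ← Finset.mul_sum]
  have h3 := grad_prod v DD p h2 k Finset.univ
  rw [← W_eq] at h3
  rw [h3, L, mul_add]
  rfl

theorem step (v : ι → Fin n → ℝ) (DD : ι → (Rx n →ₗ[ℂ] Rx n))
    (l : ℝ) (G : Rx n →ₗ[ℂ] ℂ) (hG : IsFun v l G) (k : ι → ℕ) (hk : ∀ i, 1 ≤ k i) (p : Rx n)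
    (h2 : ∀ i, lf (v i) * DD i (dv (v i) p) = 2 * dv (v i) p) :
    G (Dl v * Ev v k * ∑ j, X j * pderiv j p) =
      l * G (Dl v * Ev v k * L v DD (fun i => (k i : ℂ) + 1 / 2) p) := by
  rw [← sum_pderiv v DD p h2 k, map_sum, Finset.mul_sum, Finset.mul_sum, map_sum]
  refine Finset.sum_congr rfl fun j _ => ?_
  rw [hG.1 j (pderiv j p * (Dl v * Ev v k)) ((Dl_sq_dvd v k hk).mul_left _)]
  congr 1
  ring

/-- the operator `L` as a linear map -/
noncomputable def Lm (v : ι → Fin n → ℝ) (DD : ι → (Rx n →ₗ[ℂ] Rx n)) (κ : ι → ℂ) :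
    Rx n →ₗ[ℂ] Rx n :=
  ∑ j, (pderiv j).toLinearMap ∘ₗ (pderiv j).toLinearMap +
    ∑ i, κ i • (DD i ∘ₗ ∑ j, LinearMap.mulLeft ℂ (C ((v i j : ℝ) : ℂ)) ∘ₗ
      (pderiv j).toLinearMap)

theorem Lm_apply (v : ι → Fin n → ℝ) (DD : ι → (Rx n →ₗ[ℂ] Rx n)) (κ : ι → ℂ) (p : Rx n) :
    Lm v DD κ p = L v DD κ p := by
  unfold Lm L
  simp [LinearMap.sum_apply]

theorem iter_eq (v : ι → Fin n → ℝ) (DD : ι → (Rx n →ₗ[ℂ] Rx n)) (κ : ι → ℂ) (e : ℕ)
    (p : Rx n) : (L v DD κ)^[e] p = (Lm v DD κ ^ e) p := by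
  induction e generalizing p with
  | zero => simp
  | succ e ih => rw [Function.iterate_succ_apply, ih, pow_succ, Module.End.mul_apply, Lm_apply]

theorem iter_zero (v : ι → Fin n → ℝ) (DD : ι → (Rx n →ₗ[ℂ] Rx n)) (κ : ι → ℂ) (e : ℕ) :
    (L v DD κ)^[e] 0 = 0 := by
  rw [iter_eq, map_zero]

/-- what is used of `L` -/
def HL (v : ι → Fin n → ℝ) (DD : ι → (Rx n →ₗ[ℂ] Rx n)) (κ : ι → ℂ) : Prop :=
  ∀ p : Rx n,
      (∀ d, p.IsHomogeneous (d + 2) → (L v DD κ p).IsHomogeneous d) ∧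
      (∀ d, d < 2 → p.IsHomogeneous d → L v DD κ p = 0)

theorem hom_iter (v : ι → Fin n → ℝ) (DD : ι → (Rx n →ₗ[ℂ] Rx n)) (κ : ι → ℂ)
    (hL : HL v DD κ) (e : ℕ) : ∀ (d : ℕ) (p : Rx n), p.IsHomogeneous (d + 2 * e) →
      ((L v DD κ)^[e] p).IsHomogeneous d := by
  induction e with
  | zero => intro d p hp; exact hp
  | succ e ih =>
    intro d p hp
    rw [Function.iterate_succ_apply]
    exact ih d _ ((hL p).1 (d + 2 * e) (by rw [show d + 2 * e + 2 = d + 2 * (e + 1) by ring]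
                                           exact hp))

/-- constant coefficient of `L ^ e p` for homogeneous `p` of degree `m ≠ 2 e` -/
theorem cc_iter (v : ι → Fin n → ℝ) (DD : ι → (Rx n →ₗ[ℂ] Rx n)) (κ : ι → ℂ)
    (hL : HL v DD κ) (e m : ℕ) (hem : m ≠ 2 * e) (p : Rx n) (hp : p.IsHomogeneous m) :
    constantCoeff ((L v DD κ)^[e] p) = 0 := by
  rcases lt_or_gt_of_ne hem with h | h
  · -- `m < 2 e`
    have h3 : (L v DD κ)^[e] p = 0 := by
      have h1 : ((L v DD κ)^[m / 2] p).IsHomogeneous (m % 2) :=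
        hom_iter v DD κ hL (m / 2) (m % 2) p (by rw [Nat.mod_add_div]; exact hp)
      have h2 : L v DD κ ((L v DD κ)^[m / 2] p) = 0 :=
        (hL _).2 (m % 2) (Nat.mod_lt _ (by norm_num)) h1
      obtain ⟨f, hf⟩ : ∃ f, e = f + (1 + m / 2) := ⟨e - (1 + m / 2), by omega⟩
      rw [hf, Function.iterate_add_apply, Function.iterate_add_apply, Function.iterate_one, h2,
        iter_zero]
    rw [h3, map_zero]
  · obtain ⟨f, rfl⟩ := Nat.exists_eq_add_of_lt h
    have h1 : ((L v DD κ)^[e] p).IsHomogeneous (f + 1) :=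
      hom_iter v DD κ hL e (f + 1) p (by
        have : f + 1 + 2 * e = 2 * e + f + 1 := by ring
        rw [this]; exact hp)
    rw [constantCoeff_eq]
    exact h1.coeff_eq_zero (by simp)

theorem hom_case (v : ι → Fin n → ℝ) (DD : ι → (Rx n →ₗ[ℂ] Rx n)) (k : ι → ℕ)
    (hk : ∀ i, 1 ≤ k i) (l : ℝ) (G : Rx n →ₗ[ℂ] ℂ) (hG : IsFun v l G)
    (hL : HL v DD (fun i => (k i : ℂ) + 1 / 2))
    (hI : ∀ p, Inv v p → Inv v (L v DD (fun i => (k i : ℂ) + 1 / 2) p))
    (h2 : ∀ (i : ι) (p : Rx n), Inv v p → lf (v i) * DD i (dv (v i) p) = 2 * dv (v i) p)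
    (d : ℕ) :
    ∀ (p : Rx n), Inv v p → p.IsHomogeneous (2 * d) →
      G (Dl v * Ev v k * p) =
        G (Dl v * Ev v k) * (((l : ℂ) / 2) ^ d / (d.factorial : ℂ) *
          constantCoeff ((L v DD (fun i => (k i : ℂ) + 1 / 2))^[d] p)) := by
  induction d with
  | zero =>
    intro p _ hp
    have h1 : p = C (coeff 0 p) := by
      have h := homogeneousComponent_eq_self hp
      rw [mul_zero, homogeneousComponent_zero] at h
      exact h.symm
    have h2 : Dl v * Ev v k * p = coeff 0 p • (Dl v * Ev v k) := by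
      rw [smul_eq_C_mul, ← h1, mul_comm]
    rw [h2, map_smul]
    simp [constantCoeff_eq, mul_comm]
  | succ d ih =>
    intro p hs hp
    have h1 := step v DD l G hG k hk p (fun i => h2 i p hs)
    have hp' : p.IsHomogeneous (2 * d + 2) := by
      rw [show 2 * d + 2 = 2 * (d + 1) by ring]; exact hp
    rw [hp.sum_X_mul_pderiv, ih _ (hI p hs) ((hL p).1 (2 * d) hp'),
      ← Function.iterate_succ_apply] at h1
    have h2 : Dl v * Ev v k * ((2 * (d + 1)) • p) =
        (2 * ((d : ℂ) + 1)) • (Dl v * Ev v k * p) := by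
      rw [nsmul_eq_mul, smul_eq_C_mul, C_mul, C_add]
      push_cast
      simp only [map_natCast, C_1, map_ofNat]
      ring
    rw [h2, map_smul, smul_eq_mul] at h1
    have hd : (2 * ((d : ℂ) + 1)) ≠ 0 :=
      mul_ne_zero two_ne_zero (by exact_mod_cast Nat.succ_ne_zero d)
    have hd1 : ((d : ℂ) + 1) ≠ 0 := by exact_mod_cast Nat.succ_ne_zero d
    have hf : ((d.factorial : ℕ) : ℂ) ≠ 0 := by exact_mod_cast Nat.factorial_ne_zero d
    apply mul_left_cancel₀ hd
    rw [h1, Nat.factorial_succ]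
    push_cast
    field_simp
    try ring

theorem odd_case (v : ι → Fin n → ℝ) (DD : ι → (Rx n →ₗ[ℂ] Rx n)) (k : ι → ℕ)
    (hk : ∀ i, 1 ≤ k i) (l : ℝ) (G : Rx n →ₗ[ℂ] ℂ) (hG : IsFun v l G)
    (hL : HL v DD (fun i => (k i : ℂ) + 1 / 2))
    (hI : ∀ p, Inv v p → Inv v (L v DD (fun i => (k i : ℂ) + 1 / 2) p))
    (h2 : ∀ (i : ι) (p : Rx n), Inv v p → lf (v i) * DD i (dv (v i) p) = 2 * dv (v i) p)
    (d : ℕ) :
    ∀ (p : Rx n), Inv v p → p.IsHomogeneous (2 * d + 1) → G (Dl v * Ev v k * p) = 0 := by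
  induction d with
  | zero =>
    intro p hs hp
    have h1 := step v DD l G hG k hk p (fun i => h2 i p hs)
    rw [hp.sum_X_mul_pderiv, (hL p).2 (2 * 0 + 1) (by norm_num) hp] at h1
    simpa using h1
  | succ d ih =>
    intro p hs hp
    have h1 := step v DD l G hG k hk p (fun i => h2 i p hs)
    have hp' : p.IsHomogeneous (2 * d + 1 + 2) := by
      rw [show 2 * d + 1 + 2 = 2 * (d + 1) + 1 by ring]; exact hp
    rw [hp.sum_X_mul_pderiv, ih _ (hI p hs) ((hL p).1 (2 * d + 1) hp'), mul_zero] at h1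
    have h2 : Dl v * Ev v k * ((2 * (d + 1) + 1) • p) =
        (((2 * (d + 1) + 1 : ℕ)) : ℂ) • (Dl v * Ev v k * p) := by
      rw [nsmul_eq_mul, smul_eq_C_mul]
      push_cast
      simp only [map_natCast, C_1, map_ofNat, C_add, C_mul]
      ring
    rw [h2, map_smul, smul_eq_mul] at h1
    exact (mul_eq_zero.mp h1).resolve_left
      (Nat.cast_ne_zero.mpr (Nat.succ_ne_zero (2 * (d + 1))))

theorem lf_hom (v : Fin n → ℝ) : (lf v).IsHomogeneous 1 := by
  unfold lf
  refine IsHomogeneous.sum _ _ _ fun j _ => ?_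
  have := (isHomogeneous_C (Fin n) ((v j : ℝ) : ℂ)).mul (isHomogeneous_X ℂ j)
  rwa [zero_add] at this

theorem rf_hom (v : Fin n → ℝ) (p : Rx n) (d : ℕ) (hp : p.IsHomogeneous d) :
    (rf v p).IsHomogeneous d := by
  unfold rf
  have := hp.aeval (S := ℂ) (fun j => X j - C ((2 * v j : ℝ) : ℂ) * lf v) (n := 1) (fun j => by
    refine (isHomogeneous_X ℂ j).sub ?_
    have := (isHomogeneous_C (Fin n) ((2 * v j : ℝ) : ℂ)).mul (lf_hom v)
    rwa [zero_add] at this)
  rwa [one_mul] at this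

theorem rf_comp (v : Fin n → ℝ) (p : Rx n) (d : ℕ) :
    rf v (homogeneousComponent d p) = homogeneousComponent d (rf v p) := by
  conv_rhs => rw [← sum_homogeneousComponent p]
  rw [map_sum, map_sum]
  have h1 : ∀ i ∈ Finset.range (p.totalDegree + 1),
      homogeneousComponent d (rf v (homogeneousComponent i p)) =
      if d = i then rf v (homogeneousComponent i p) else 0 := by
    intro i _
    exact homogeneousComponent_of_mem
      (rf_hom v _ i (homogeneousComponent_isHomogeneous i p))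
  rw [Finset.sum_congr rfl h1, Finset.sum_ite_eq]
  split_ifs with h
  · rfl
  · rw [homogeneousComponent_eq_zero d p (by simpa using h), map_zero]

theorem main (v : ι → Fin n → ℝ) (DD : ι → (Rx n →ₗ[ℂ] Rx n)) (k : ι → ℕ)
    (hk : ∀ i, 1 ≤ k i) (l : ℝ) (G : Rx n →ₗ[ℂ] ℂ) (hG : IsFun v l G)
    (hL : HL v DD (fun i => (k i : ℂ) + 1 / 2))
    (hI : ∀ p, Inv v p → Inv v (L v DD (fun i => (k i : ℂ) + 1 / 2) p))
    (h2 : ∀ (i : ι) (p : Rx n), Inv v p → lf (v i) * DD i (dv (v i) p) = 2 * dv (v i) p)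
    (N : ℕ) (p : Rx n) (hs : Inv v p) (hN : p.totalDegree ≤ N) :
    G (Dl v * Ev v k * p) = G (Dl v * Ev v k) * Ex v DD l N (fun i => (k i : ℂ) + 1 / 2) p := by
  have hdec : p = ∑ d ∈ Finset.range (2 * N + 2), homogeneousComponent d p := by
    conv_lhs => rw [← sum_homogeneousComponent p]
    refine Finset.sum_subset (Finset.range_mono (by omega)) fun d _ hd => ?_
    exact homogeneousComponent_eq_zero d p (by simpa [Nat.lt_succ_iff] using hd)
  have hsd : ∀ d, Inv v (homogeneousComponent d p) := by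
    intro d i
    rw [rf_comp, hs i]
  have hhd : ∀ d, (homogeneousComponent d p).IsHomogeneous d := fun d =>
    homogeneousComponent_isHomogeneous d p
  -- regroup the homogeneous components by parity
  have hpair : ∀ (F : ℕ → ℂ) (M : ℕ), ∑ d ∈ Finset.range (2 * M), F d =
      ∑ d ∈ Finset.range M, (F (2 * d) + F (2 * d + 1)) := by
    intro F M
    induction M with
    | zero => simp
    | succ M ih =>
      rw [show 2 * (M + 1) = 2 * M + 1 + 1 by ring, Finset.sum_range_succ, Finset.sum_range_succ,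
        ih, Finset.sum_range_succ]
      ring
  have h1 : G (Dl v * Ev v k * p) =
      ∑ d ∈ Finset.range (N + 1), G (Dl v * Ev v k * homogeneousComponent (2 * d) p) := by
    conv_lhs => rw [hdec]
    rw [Finset.mul_sum, map_sum, show 2 * N + 2 = 2 * (N + 1) by ring,
      hpair (fun d => G (Dl v * Ev v k * homogeneousComponent d p))]
    refine Finset.sum_congr rfl fun d _ => ?_
    rw [odd_case v DD k hk l G hG hL hI h2 d _ (hsd _) (hhd _), add_zero]
  have h3 : ∀ d ∈ Finset.range (N + 1),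
      constantCoeff ((L v DD (fun i => (k i : ℂ) + 1 / 2))^[d] p) =
      constantCoeff ((L v DD (fun i => (k i : ℂ) + 1 / 2))^[d]
        (homogeneousComponent (2 * d) p)) := by
    intro d hd
    rw [iter_eq]
    conv_lhs => rw [hdec]
    rw [map_sum, map_sum, Finset.sum_eq_single (2 * d)]
    · rw [iter_eq]
    · intro e _ hed
      rw [← iter_eq]
      exact cc_iter v DD _ hL d e hed _ (hhd e)
    · intro h
      exact absurd (Finset.mem_range.mpr (by have := Finset.mem_range.mp hd; omega)) h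
  rw [h1, Ex, Finset.mul_sum]
  refine Finset.sum_congr rfl fun d hd => ?_
  rw [h3 d hd]
  exact hom_case v DD k hk l G hG hL hI h2 d _ (hsd _) (hhd _)

end ExpAux

open ExpAux in
theorem t_Exp (h : StmDDL) : StmExp := by
  intro n ι _ v hv DD hDD l G _ hG k hok hk N p hs hN
  obtain ⟨_, h1⟩ := h n ι v hv
  obtain ⟨ha, hb, _, hd⟩ := h1 DD hDD
  have hκ : Orb v (fun i => (k i : ℂ) + 1 / 2) := fun i a m ham => by
    have := hok i a m ham
    simp only [this]
  exact main v DD k hk l G hG (hb _) (ha _ hκ) hd N p hs hN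

end Pool.Agent.K3h15.RG
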