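import Pool.Agent.K3h15.RG.Stm

/-! # The Gaussian functional -/

set_option autoImplicit false

namespace Pool.Agent.K3h15.RG

open MvPolynomial MeasureTheory

open Pool.Agent.K3h15.DM (Rx)

namespace GaussAux

variable {n : ℕ}

/-- the value of a polynomial at a real point -/
noncomputable def ev (x : Fin n → ℝ) (p : Rx n) : ℂ := eval (fun j => ((x j : ℝ) : ℂ)) p

/-- the Gaussian -/
noncomputable def wt (l : ℝ) (x : Fin n → ℝ) : ℝ := ∏ j, Real.exp (-(1 / (2 * l)) * x j ^ 2)

lemma wt_pos (l : ℝ) (x : Fin n → ℝ) : 0 < wt l x := Finset.prod_pos fun _ _ => Real.exp_pos _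

lemma continuous_wt (l : ℝ) : Continuous (wt l : (Fin n → ℝ) → ℝ) := by
  unfold wt
  fun_prop

lemma continuous_ev (p : Rx n) : Continuous fun x : Fin n → ℝ => ev x p := by
  unfold ev
  exact (MvPolynomial.continuous_eval p).comp (by fun_prop)

lemma integrable_pow (l : ℝ) (hl : 0 < l) (m : ℕ) :
    Integrable fun t : ℝ => t ^ m * Real.exp (-(1 / (2 * l)) * t ^ 2) := by
  have h := integrable_rpow_mul_exp_neg_mul_sq (b := 1 / (2 * l)) (by positivity) (s := (m : ℝ))
    (by have : (0 : ℝ) ≤ m := Nat.cast_nonneg m; linarith)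
  simpa using h

lemma integrable_ev {l : ℝ} (hl : 0 < l) (p : Rx n) :
    Integrable fun x : Fin n → ℝ => ev x p * (wt l x : ℂ) := by
  induction p using MvPolynomial.induction_on' with
  | monomial s a =>
    have h1 : Integrable fun x : Fin n → ℝ =>
        ∏ j, (((x j) ^ (s j) * Real.exp (-(1 / (2 * l)) * x j ^ 2) : ℝ) : ℂ) := by
      refine Integrable.fintype_prod (f := fun j (t : ℝ) =>
        ((t ^ (s j) * Real.exp (-(1 / (2 * l)) * t ^ 2) : ℝ) : ℂ)) fun j => ?_
      exact (integrable_pow l hl (s j)).ofReal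
    refine (h1.const_mul a).congr (Filter.Eventually.of_forall fun x => ?_)
    simp only [ev, wt, eval_monomial]
    rw [Finsupp.prod_fintype _ _ (by simp)]
    push_cast
    rw [Finset.prod_mul_distrib]
    ring
  | add p q hp hq =>
    refine (hp.add hq).congr (Filter.Eventually.of_forall fun x => ?_)
    simp only [ev, map_add, Pi.add_apply]
    ring

/-- the derivative along a coordinate direction -/
lemma hasDerivAt_ev (p : Rx n) (x : Fin n → ℝ) (j : Fin n) :
    HasDerivAt (fun t : ℝ => ev (x + t • (Pi.single j 1 : Fin n → ℝ)) p) (ev x (pderiv j p)) 0 := by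
  induction p using MvPolynomial.induction_on with
  | C a =>
    simp only [ev, eval_C, pderiv_C, map_zero]
    exact hasDerivAt_const _ _
  | add p q hp hq =>
    simp only [ev, map_add] at hp hq ⊢
    exact hp.add hq
  | mul_X p i hp =>
    have h1 : HasDerivAt (fun t : ℝ => ev (x + t • (Pi.single j 1 : Fin n → ℝ)) (X i))
        (ev x (pderiv j (X i))) 0 := by
      simp only [ev, eval_X, pderiv_X]
      have h2 : HasDerivAt (fun t : ℝ => (x + t • (Pi.single j 1 : Fin n → ℝ)) i)
          ((Pi.single j 1 : Fin n → ℝ) i) 0 := by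
        have := ((hasDerivAt_id (0 : ℝ)).mul_const ((Pi.single j 1 : Fin n → ℝ) i)).const_add (x i)
        simpa using this
      have h3 := h2.ofReal_comp
      convert h3 using 1
      by_cases hij : i = j
      · subst hij; simp
      · rw [Pi.single_eq_of_ne hij, Pi.single_eq_of_ne (Ne.symm hij |> fun h => by simpa [eq_comm] using h)]
        simp
    have h4 := hp.mul h1
    have h5 : (fun t : ℝ => ev (x + t • (Pi.single j 1 : Fin n → ℝ)) (p * X i)) = fun t : ℝ =>
        ev (x + t • (Pi.single j 1 : Fin n → ℝ)) p *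
          ev (x + t • (Pi.single j 1 : Fin n → ℝ)) (X i) := by
      funext t
      simp only [ev, map_mul]
    rw [h5]
    refine h4.congr_deriv ?_
    rw [zero_smul, add_zero]
    simp only [ev, map_mul, Derivation.leibniz, smul_eq_mul, map_add]
    ring

lemma hasDerivAt_wt (l : ℝ) (x : Fin n → ℝ) (j : Fin n) :
    HasDerivAt (fun t : ℝ => (wt l (x + t • (Pi.single j 1 : Fin n → ℝ))))
      (-(x j / l) * wt l x) 0 := by
  have hw : ∀ y : Fin n → ℝ, wt l y = Real.exp (-(1 / (2 * l)) * ∑ i, y i ^ 2) := by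
    intro y
    rw [wt, ← Real.exp_sum, Finset.mul_sum]
  simp only [hw]
  have h0 : ∀ i, HasDerivAt (fun t : ℝ => (x + t • (Pi.single j 1 : Fin n → ℝ)) i)
      ((Pi.single j 1 : Fin n → ℝ) i) 0 := by
    intro i
    have := ((hasDerivAt_id (0 : ℝ)).mul_const ((Pi.single j 1 : Fin n → ℝ) i)).const_add (x i)
    simpa using this
  have h1 : HasDerivAt (fun t : ℝ => ∑ i, (x + t • (Pi.single j 1 : Fin n → ℝ)) i ^ 2)
      (2 * x j) 0 := by
    have h2 := HasDerivAt.fun_sum (u := Finset.univ) fun i _ => (h0 i).pow 2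
    refine h2.congr_deriv ?_
    rw [Finset.sum_eq_single j]
    · simp
    · intro i _ hij
      rw [Pi.single_eq_of_ne hij]
      ring
    · intro h; exact absurd (Finset.mem_univ j) h
  have h3 := (h1.const_mul (-(1 / (2 * l)))).exp
  refine h3.congr_deriv ?_
  rw [zero_smul, add_zero]
  by_cases hl : l = 0
  · subst hl; simp
  · field_simp

lemma hasDerivAt_abs_mul (a : ℝ) : HasDerivAt (fun s : ℝ => |s| * s) (2 * |a|) a := by
  rcases lt_trichotomy a 0 with h | h | h
  · have h1 : HasDerivAt (fun s : ℝ => -(s * s)) (2 * |a|) a := by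
      have := ((hasDerivAt_id a).mul (hasDerivAt_id a)).neg
      refine this.congr_deriv ?_
      rw [abs_of_neg h]
      simp only [id]
      ring
    refine h1.congr_of_eventuallyEq ?_
    filter_upwards [Iio_mem_nhds h] with s hs
    rw [abs_of_neg hs]
    ring
  · subst h
    rw [hasDerivAt_iff_tendsto_slope_zero]
    simp only [zero_add, abs_zero, sub_zero, mul_zero, smul_eq_mul]
    have h1 : Filter.Tendsto (fun t : ℝ => |t|) (nhdsWithin 0 {0}ᶜ) (nhds 0) := by
      have : Filter.Tendsto (fun t : ℝ => |t|) (nhds 0) (nhds 0) := by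
        simpa using (continuous_abs : Continuous fun t : ℝ => |t|).tendsto 0
      exact this.mono_left nhdsWithin_le_nhds
    refine h1.congr' ?_
    filter_upwards [self_mem_nhdsWithin] with t ht
    have ht : t ≠ 0 := ht
    field_simp
  · have h1 : HasDerivAt (fun s : ℝ => s * s) (2 * |a|) a := by
      have := (hasDerivAt_id a).mul (hasDerivAt_id a)
      refine this.congr_deriv ?_
      rw [abs_of_pos h]
      simp only [id]
      ring
    refine h1.congr_of_eventuallyEq ?_
    filter_upwards [Ioi_mem_nhds h] with s hs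
    rw [abs_of_pos hs]

section

variable {ι : Type} [Fintype ι] (v : ι → Fin n → ℝ)

/-- the real value of `Dl` -/
noncomputable def D (x : Fin n → ℝ) : ℝ := ∏ i, ∑ j, v i j * x j

lemma ev_Dl (x : Fin n → ℝ) : ev x (Dl v) = (D v x : ℂ) := by
  simp only [ev, Dl, lf, D, map_prod, map_sum, map_mul, eval_C, eval_X]
  push_cast
  rfl

lemma continuous_D : Continuous (D v) := by
  unfold D
  fun_prop

/-- the sign -/
noncomputable def sg (x : Fin n → ℝ) : ℝ := Real.sign (D v x)

lemma sg_mul (x : Fin n → ℝ) : sg v x * D v x = |D v x| := by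
  rw [sg]
  rcases lt_trichotomy (D v x) 0 with h | h | h
  · rw [Real.sign_of_neg h, abs_of_neg h]; ring
  · rw [h]; simp
  · rw [Real.sign_of_pos h, abs_of_pos h]; ring

lemma measurable_sg : Measurable (sg v) := by
  unfold sg Real.sign
  refine Measurable.ite ?_ measurable_const (Measurable.ite ?_ measurable_const measurable_const)
  · exact measurableSet_lt (continuous_D v).measurable measurable_const
  · exact measurableSet_lt measurable_const (continuous_D v).measurable

lemma abs_sg_le (x : Fin n → ℝ) : |sg v x| ≤ 1 := by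
  rcases Real.sign_apply_eq (D v x) with h | h | h <;> simp [sg, h]

lemma integrable_sg {l : ℝ} (hl : 0 < l) (p : Rx n) :
    Integrable fun x : Fin n → ℝ => (sg v x : ℂ) * (ev x p * (wt l x : ℂ)) := by
  refine Integrable.bdd_mul (c := 1) (integrable_ev hl p) ?_ ?_
  · exact (Complex.measurable_ofReal.comp (measurable_sg v)).aestronglyMeasurable
  · refine Filter.Eventually.of_forall fun x => ?_
    rw [Complex.norm_real]
    exact abs_sg_le v x

/-- the functional -/
noncomputable def G {l : ℝ} (hl : 0 < l) : Rx n →ₗ[ℂ] ℂ where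
  toFun p := ∫ x : Fin n → ℝ, (sg v x : ℂ) * (ev x p * (wt l x : ℂ))
  map_add' p q := by
    rw [← integral_add (integrable_sg v hl p) (integrable_sg v hl q)]
    congr 1
    funext x
    simp only [ev, map_add]
    ring
  map_smul' a p := by
    rw [RingHom.id_apply, smul_eq_mul, ← integral_const_mul]
    congr 1
    funext x
    simp only [ev, smul_eval]
    ring

lemma G_apply {l : ℝ} (hl : 0 < l) (p : Rx n) :
    G v hl p = ∫ x : Fin n → ℝ, (sg v x : ℂ) * (ev x p * (wt l x : ℂ)) := rfl

/-- the derivative of `sgn (D) u exp` for `u` divisible by `Dl ^ 2` -/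
lemma hasDerivAt_phi {l : ℝ} (x : Fin n → ℝ) (j : Fin n) (q : Rx n) :
    HasDerivAt (fun t : ℝ => ((sg v (x + t • (Pi.single j 1 : Fin n → ℝ)) : ℝ) : ℂ) *
        (ev (x + t • (Pi.single j 1 : Fin n → ℝ)) (Dl v ^ 2 * q) *
          (wt l (x + t • (Pi.single j 1 : Fin n → ℝ)) : ℂ)))
      ((sg v x : ℂ) * (ev x (pderiv j (Dl v ^ 2 * q)) * (wt l x : ℂ)) -
        (x j / l : ℂ) * ((sg v x : ℂ) * (ev x (Dl v ^ 2 * q) * (wt l x : ℂ)))) 0 := by
  have hev : ∀ y : Fin n → ℝ, ev y (Dl v ^ 2 * q) = (D v y : ℂ) ^ 2 * ev y q := by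
    intro y
    rw [← ev_Dl]
    simp only [ev, map_mul, map_pow]
  have hfun : (fun t : ℝ => ((sg v (x + t • (Pi.single j 1 : Fin n → ℝ)) : ℝ) : ℂ) *
        (ev (x + t • (Pi.single j 1 : Fin n → ℝ)) (Dl v ^ 2 * q) *
          (wt l (x + t • (Pi.single j 1 : Fin n → ℝ)) : ℂ))) = fun t : ℝ =>
      ((|D v (x + t • (Pi.single j 1 : Fin n → ℝ))| * D v (x + t • (Pi.single j 1 : Fin n → ℝ)) :
        ℝ) : ℂ) * (ev (x + t • (Pi.single j 1 : Fin n → ℝ)) q *
          (wt l (x + t • (Pi.single j 1 : Fin n → ℝ)) : ℂ)) := by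
    funext t
    rw [hev, ← sg_mul]
    push_cast
    ring
  rw [hfun]
  -- the derivative of `D`
  have hD : HasDerivAt (fun t : ℝ => ((D v (x + t • (Pi.single j 1 : Fin n → ℝ)) : ℝ) : ℂ))
      (ev x (pderiv j (Dl v))) 0 := by
    have := hasDerivAt_ev (Dl v) x j
    simpa only [ev_Dl] using this
  have hDr : ∃ d : ℝ, HasDerivAt (fun t : ℝ => D v (x + t • (Pi.single j 1 : Fin n → ℝ))) d 0 := by
    have : DifferentiableAt ℝ (fun t : ℝ => D v (x + t • (Pi.single j 1 : Fin n → ℝ))) 0 := by
      unfold D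
      fun_prop
    exact ⟨_, this.hasDerivAt⟩
  obtain ⟨d, hd⟩ := hDr
  have hd' : ev x (pderiv j (Dl v)) = (d : ℂ) := hD.unique hd.ofReal_comp
  have h0 : x + (0 : ℝ) • (Pi.single j 1 : Fin n → ℝ) = x := by rw [zero_smul, add_zero]
  have h1 : HasDerivAt (fun t : ℝ => |D v (x + t • (Pi.single j 1 : Fin n → ℝ))| *
      D v (x + t • (Pi.single j 1 : Fin n → ℝ))) (2 * |D v x| * d) 0 := by
    have h2 := hasDerivAt_abs_mul (D v (x + (0 : ℝ) • (Pi.single j 1 : Fin n → ℝ)))
    have h3 := h2.comp (0 : ℝ) hd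
    rw [h0] at h3
    exact h3
  have h4 := h1.ofReal_comp.mul ((hasDerivAt_ev q x j).mul (hasDerivAt_wt l x j).ofReal_comp)
  refine h4.congr_deriv ?_
  simp only [Pi.mul_apply]
  rw [h0]
  have h5 : ev x (pderiv j (Dl v ^ 2 * q)) =
      2 * (D v x : ℂ) * d * ev x q + (D v x : ℂ) ^ 2 * ev x (pderiv j q) := by
    have : pderiv j (Dl v ^ 2 * q) = 2 * Dl v * pderiv j (Dl v) * q +
        Dl v ^ 2 * pderiv j q := by
      rw [Derivation.leibniz, Derivation.leibniz_pow]
      simp only [smul_eq_mul, nsmul_eq_mul, Nat.cast_ofNat]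
      ring
    rw [this, ← hd', ← ev_Dl]
    simp only [ev, map_add, map_mul, map_pow, map_ofNat]
  rw [h5, hev, ← sg_mul]
  push_cast
  ring

/-- integration by parts -/
lemma ibp {l : ℝ} (hl : 0 < l) (j : Fin n) (q : Rx n) :
    (l : ℂ) * G v hl (pderiv j (Dl v ^ 2 * q)) = G v hl (X j * (Dl v ^ 2 * q)) := by
  have hlne : (l : ℂ) ≠ 0 := by exact_mod_cast hl.ne'
  set u := Dl v ^ 2 * q with hu
  have hX : ∀ x : Fin n → ℝ, ev x (X j * u) = (x j : ℂ) * ev x u := by
    intro x
    simp only [ev, map_mul, eval_X]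
  have hI1 := integrable_sg v hl (pderiv j u)
  have hI2 := integrable_sg v hl (X j * u)
  have hI2' : Integrable fun x : Fin n → ℝ =>
      (x j / l : ℂ) * ((sg v x : ℂ) * (ev x u * (wt l x : ℂ))) := by
    refine (hI2.const_mul (1 / (l : ℂ))).congr (Filter.Eventually.of_forall fun x => ?_)
    simp only [hX]
    ring
  have hI3 : Integrable fun x : Fin n → ℝ => ((sg v x : ℂ) * (ev x (pderiv j u) * (wt l x : ℂ)) -
      (x j / l : ℂ) * ((sg v x : ℂ) * (ev x u * (wt l x : ℂ)))) := hI1.sub hI2'
  have key : ∫ x : Fin n → ℝ, ((sg v x : ℂ) * (ev x (pderiv j u) * (wt l x : ℂ)) -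
      (x j / l : ℂ) * ((sg v x : ℂ) * (ev x u * (wt l x : ℂ)))) = 0 := by
    have h := integral_bilinear_hasLineDerivAt_right_eq_neg_left_of_integrable
      (μ := (volume : Measure (Fin n → ℝ))) (f := fun _ => (1 : ℝ)) (f' := fun _ => (0 : ℝ))
      (g := fun x : Fin n → ℝ => (sg v x : ℂ) * (ev x u * (wt l x : ℂ)))
      (g' := fun x : Fin n → ℝ => (sg v x : ℂ) * (ev x (pderiv j u) * (wt l x : ℂ)) -
        (x j / l : ℂ) * ((sg v x : ℂ) * (ev x u * (wt l x : ℂ))))
      (v := (Pi.single j 1 : Fin n → ℝ)) (B := ContinuousLinearMap.lsmul ℝ ℝ) (by simp)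
      (by simpa using hI3) (by simpa using integrable_sg v hl u)
      (fun x _ => by
        simpa [HasLineDerivAt] using hasDerivAt_const (0 : ℝ) (1 : ℝ))
      (fun x _ => by
        have := hasDerivAt_phi v (l := l) x j q
        exact this)
    simpa using h
  rw [integral_sub hI1 hI2'] at key
  rw [G_apply, G_apply, sub_eq_zero.1 key, ← integral_const_mul]
  congr 1
  funext x
  rw [hX]
  field_simp

/-- positivity -/
lemma pos {l : ℝ} (hl : 0 < l) (hv : ∀ i, v i ≠ 0) (k : ι → ℕ) : G v hl (Dl v * Ev v k) ≠ 0 := by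
  -- the real integrand
  have hE : ∀ x : Fin n → ℝ, ev x (Ev v k) = ((∏ i, (∑ j, v i j * x j) ^ (2 * k i) : ℝ) : ℂ) := by
    intro x
    simp only [ev, Ev, lf, map_prod, map_pow, map_sum, map_mul, eval_C, eval_X]
    push_cast
    rfl
  set E : (Fin n → ℝ) → ℝ := fun x => ∏ i, (∑ j, v i j * x j) ^ (2 * k i) with hEdef
  have hE0 : ∀ x, 0 ≤ E x := by
    intro x
    refine Finset.prod_nonneg fun i _ => ?_
    rw [pow_mul]
    exact pow_nonneg (sq_nonneg _) _
  set Fr : (Fin n → ℝ) → ℝ := fun x => |D v x| * E x * wt l x with hFr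
  have hint : ∀ x : Fin n → ℝ, (sg v x : ℂ) * (ev x (Dl v * Ev v k) * (wt l x : ℂ)) =
      ((Fr x : ℝ) : ℂ) := by
    intro x
    have : ev x (Dl v * Ev v k) = (D v x : ℂ) * (E x : ℂ) := by
      rw [← ev_Dl, ← hE]
      simp only [ev, map_mul]
    rw [this, hFr]
    simp only
    rw [← sg_mul]
    push_cast
    ring
  have hFint : Integrable Fr := by
    have h := integrable_sg v hl (Dl v * Ev v k)
    simp only [hint] at h
    have := h.re
    simpa using this
  rw [G_apply]
  simp only [hint]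
  rw [integral_complex_ofReal]
  have hpos : 0 < ∫ x, Fr x := by
    rw [integral_pos_iff_support_of_nonneg (fun x => ?_) hFint]
    · have hcont : Continuous Fr := by
        have h1 := continuous_D v
        have h2 := continuous_wt (n := n) l
        have h3 : Continuous E := by
          rw [hEdef]
          fun_prop
        rw [hFr]
        exact ((h1.abs).mul h3).mul h2
      have hopen : IsOpen (Function.support Fr) := hcont.isOpen_support
      refine hopen.measure_pos volume ?_
      -- a point where no form vanishes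
      have hne : (∏ i, ∑ j, MvPolynomial.C (v i j) * MvPolynomial.X j : MvPolynomial (Fin n) ℝ) ≠
          0 := by
        rw [Finset.prod_ne_zero_iff]
        intro i _ h0
        apply hv i
        funext j
        have h1 := congrArg (fun p => MvPolynomial.eval (Pi.single j (1 : ℝ)) p) h0
        simp only [map_sum, map_mul, eval_C, eval_X, map_zero] at h1
        rw [Finset.sum_eq_single j] at h1
        · simpa using h1
        · intro m _ hm
          rw [Pi.single_eq_of_ne hm, mul_zero]
        · intro h; exact absurd (Finset.mem_univ j) h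
      obtain ⟨x, hx⟩ : ∃ x : Fin n → ℝ, MvPolynomial.eval x
          (∏ i, ∑ j, MvPolynomial.C (v i j) * MvPolynomial.X j : MvPolynomial (Fin n) ℝ) ≠ 0 := by
        by_contra hcon
        push Not at hcon
        exact hne (MvPolynomial.funext fun x => by rw [hcon x, map_zero])
      simp only [map_prod, map_sum, map_mul, eval_C, eval_X] at hx
      refine ⟨x, ?_⟩
      rw [Function.mem_support, hFr]
      have hx' : D v x ≠ 0 := hx
      have hx'' : E x ≠ 0 := by
        rw [hEdef]
        simp only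
        rw [Finset.prod_ne_zero_iff]
        intro i hi
        exact pow_ne_zero _ ((Finset.prod_ne_zero_iff.1 hx) i hi)
      exact mul_ne_zero (mul_ne_zero (abs_ne_zero.2 hx') hx'') (wt_pos l x).ne'
    · exact mul_nonneg (mul_nonneg (abs_nonneg _) (hE0 x)) (wt_pos l x).le
  intro h
  have : (∫ x, Fr x) = 0 := by exact_mod_cast h
  exact hpos.ne' this

end

end GaussAux

/-- **Brick GAUSS.** -/
theorem t_Gauss : StmGauss := by
  intro n ι _ v hv l hl
  refine ⟨GaussAux.G v hl, ?_, fun k => GaussAux.pos v hl hv k⟩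
  rintro j u ⟨q, rfl⟩
  exact GaussAux.ibp v hl j q

end Pool.Agent.K3h15.RG
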