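import Pool.Agent.K3h15.RG.Stm
import Pool.Agent.K3h15.DM.Mult

/-! # Reflection groups: multiplicativity, integration by parts, the roots -/

set_option autoImplicit false

namespace Pool.Agent.K3h15.RG

open MvPolynomial
open Pool.Agent.K3h15.DM (Rx poly_eq IsIBP StmAdj)
open Pool.Agent.H628R4.TP (weylS)

theorem inv_mul {n : ℕ} {ι : Type} {v : ι → Fin n → ℝ} {p q : Rx n} (hp : Inv v p)
    (hq : Inv v q) : Inv v (p * q) := fun i => by rw [map_mul, hp i, hq i]

theorem Ev_add {n : ℕ} {ι : Type} [Fintype ι] (v : ι → Fin n → ℝ) (k m : ι → ℕ) :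
    Ev v (k + m) = Ev v k * Ev v m := by
  rw [Ev, Ev, Ev, ← Finset.prod_mul_distrib]
  refine Finset.prod_congr rfl fun i _ => ?_
  rw [← pow_add, Pi.add_apply, mul_add]

theorem Ev_pow {n : ℕ} {ι : Type} [Fintype ι] (v : ι → Fin n → ℝ) (k : ι → ℕ) (s : ℕ) :
    Ev v k ^ s = Ev v (fun i => k i * s) := by
  rw [Ev, Ev, ← Finset.prod_pow]
  refine Finset.prod_congr rfl fun i _ => ?_
  rw [← pow_mul, mul_assoc]

theorem Dl_dvd {n : ℕ} {ι : Type} [Fintype ι] (v : ι → Fin n → ℝ) (k : ι → ℕ)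
    (hk : ∀ i, 1 ≤ k i) : Dl v ^ 2 ∣ Ev v k := by
  rw [Dl, Ev, ← Finset.prod_pow]
  refine Finset.prod_dvd_prod_of_dvd _ _ fun i _ => pow_dvd_pow _ ?_
  have := hk i
  omega

section

variable {n : ℕ} {ι : Type} [Fintype ι] {v : ι → Fin n → ℝ} {DD : ι → (Rx n →ₗ[ℂ] Rx n)}

theorem mult_nat (hv : IsRoots v) (hDD : IsDD v DD) (hDDL : StmDDL)
    (hExp : StmExp) {l : ℝ} (hl : 0 < l) {G : Rx n →ₗ[ℂ] ℂ} (hG : IsFun v l G)
    {k i : ι → ℕ} (hk : Orb v k) (hk1 : ∀ j, 1 ≤ k j) (hi : Orb v i) {p : Rx n} (hp : Inv v p)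
    {N N1 N2 : ℕ} (hN : (Ev v i * p).totalDegree ≤ N) (hN1 : (Ev v i).totalDegree ≤ N1)
    (hN2 : p.totalDegree ≤ N2) :
    Ex v DD l N (fun j => (k j : ℂ) + 1 / 2) (Ev v i * p) =
      Ex v DD l N1 (fun j => (k j : ℂ) + 1 / 2) (Ev v i) *
        Ex v DD l N2 (fun j => (k j : ℂ) + 1 / 2 + i j) p := by
  have hs : Inv v (Ev v i) := ((hDDL n ι v hv).2 DD hDD).2.2.1 i hi
  have e1 := hExp n ι v hv DD hDD l G hl hG k hk hk1 N _ (inv_mul hs hp) hN
  have e2 := hExp n ι v hv DD hDD l G hl hG k hk hk1 N1 _ hs hN1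
  have hki : Orb v (k + i) := fun x y m h => by
    rw [Pi.add_apply, Pi.add_apply, hk x y m h, hi x y m h]
  have e3 := hExp n ι v hv DD hDD l G hl hG (k + i) hki (fun j => by
    have := hk1 j
    simp only [Pi.add_apply]
    omega) N2 _ hp hN2
  have h1 : Dl v * Ev v k * (Ev v i * p) = Dl v * Ev v (k + i) * p := by
    rw [Ev_add]
    ring
  have h2 : Dl v * Ev v k * Ev v i = Dl v * Ev v (k + i) := by
    rw [Ev_add]
    ring
  rw [h1, e3] at e1
  rw [h2] at e2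
  rw [e2] at e1
  have h3 := hG.2 k
  have h4 : (fun j => (((k + i) j : ℕ) : ℂ) + 1 / 2) = (fun j => (k j : ℂ) + 1 / 2 + i j) := by
    funext j
    rw [Pi.add_apply]
    push_cast
    ring
  rw [h4, mul_assoc] at e1
  exact (mul_left_cancel₀ h3 e1).symm

theorem mult (hv : IsRoots v) (hDD : IsDD v DD) (hDDL : StmDDL) (hGauss : StmGauss)
    (hExp : StmExp) (hPol : StmPol) {l : ℝ} (hl : 0 < l) {a i : ι → ℕ} (ha : Orb v a)
    (hi : Orb v i) {p : Rx n} (hp : Inv v p) {N N1 N2 : ℕ}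
    (hN : (Ev v i * p).totalDegree ≤ N) (hN1 : (Ev v i).totalDegree ≤ N1)
    (hN2 : p.totalDegree ≤ N2) (x y : ℂ) :
    Ex v DD l N (fun j => (a j : ℂ) * x + (y + 1 / 2)) (Ev v i * p) =
      Ex v DD l N1 (fun j => (a j : ℂ) * x + (y + 1 / 2)) (Ev v i) *
        Ex v DD l N2 (fun j => (a j : ℂ) * x + (y + 1 / 2) + i j) p := by
  have hv0 : ∀ i, v i ≠ 0 := by
    intro i h
    have := hv.1 i
    rw [h] at this
    simp at this
  obtain ⟨G, hG⟩ := hGauss n ι v hv0 l hl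
  -- `x` complex, `y` a natural number
  have h1 : ∀ (x : ℂ) (y : ℕ), 1 ≤ y →
      Ex v DD l N (fun j => (a j : ℂ) * x + ((y : ℂ) + 1 / 2)) (Ev v i * p) =
      Ex v DD l N1 (fun j => (a j : ℂ) * x + ((y : ℂ) + 1 / 2)) (Ev v i) *
        Ex v DD l N2 (fun j => (a j : ℂ) * x + ((y : ℂ) + 1 / 2 + i j)) p := by
    intro x y hy
    obtain ⟨P1, hP1⟩ := hPol n ι v DD l N (Ev v i * p) (fun j => (a j : ℂ))
      (fun _ => (y : ℂ) + 1 / 2)
    obtain ⟨P2, hP2⟩ := hPol n ι v DD l N1 (Ev v i) (fun j => (a j : ℂ))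
      (fun _ => (y : ℂ) + 1 / 2)
    obtain ⟨P3, hP3⟩ := hPol n ι v DD l N2 p (fun j => (a j : ℂ))
      (fun j => (y : ℂ) + 1 / 2 + i j)
    have h2 : P1 = P2 * P3 := by
      refine poly_eq 0 fun s _ => ?_
      rw [Polynomial.eval_mul, hP1, hP2, hP3]
      have hk : Orb v (fun j => a j * s + y) := fun x z m h => by
        dsimp only
        rw [ha x z m h]
      have h3 := mult_nat hv hDD hDDL hExp hl hG hk (fun j => hy.trans (Nat.le_add_left _ _))
        hi hp hN hN1 hN2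
      have h4 : (fun j => (((a j * s + y : ℕ)) : ℂ) + 1 / 2) =
          (fun j => (a j : ℂ) * s + ((y : ℂ) + 1 / 2)) := by
        funext j
        push_cast
        ring
      have h5 : (fun j => (((a j * s + y : ℕ)) : ℂ) + 1 / 2 + i j) =
          (fun j => (a j : ℂ) * s + ((y : ℂ) + 1 / 2 + i j)) := by
        funext j
        push_cast
        ring
      rw [h4, h5] at h3
      exact h3
    have h4 := congrArg (fun P : Polynomial ℂ => P.eval x) h2
    simp only [Polynomial.eval_mul] at h4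
    rw [hP1, hP2, hP3] at h4
    exact h4
  obtain ⟨P1, hP1⟩ := hPol n ι v DD l N (Ev v i * p) (fun _ => 1)
    (fun j => (a j : ℂ) * x + 1 / 2)
  obtain ⟨P2, hP2⟩ := hPol n ι v DD l N1 (Ev v i) (fun _ => 1)
    (fun j => (a j : ℂ) * x + 1 / 2)
  obtain ⟨P3, hP3⟩ := hPol n ι v DD l N2 p (fun _ => 1)
    (fun j => (a j : ℂ) * x + 1 / 2 + i j)
  have e1 : ∀ y : ℂ, (fun j => 1 * y + ((a j : ℂ) * x + 1 / 2)) =
      (fun j => (a j : ℂ) * x + (y + 1 / 2)) := by
    intro y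
    funext j
    ring
  have e2 : ∀ y : ℂ, (fun j => 1 * y + ((a j : ℂ) * x + 1 / 2 + i j)) =
      (fun j => (a j : ℂ) * x + (y + 1 / 2 + i j)) := by
    intro y
    funext j
    ring
  have h2 : P1 = P2 * P3 := by
    refine poly_eq 1 fun s hs => ?_
    rw [Polynomial.eval_mul, hP1, hP2, hP3, e1, e2]
    exact h1 x s hs
  have h4 := congrArg (fun P : Polynomial ℂ => P.eval y) h2
  simp only [Polynomial.eval_mul] at h4
  rw [hP1, hP2, hP3, e1, e2] at h4
  have e3 : (fun j => (a j : ℂ) * x + (y + 1 / 2) + i j) =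
      (fun j => (a j : ℂ) * x + (y + 1 / 2 + i j)) := by
    funext j
    ring
  rw [e3]
  exact h4

/-- vanishing of `Ex` on the ideal of an irreducible parabolic subset -/
theorem van_gen (hv : IsRoots v) (hDD : IsDD v DD) (hDDL : StmDDL) (hVan : StmVan)
    {I : Finset ι} {r : ℕ} (hI : IsPar v I r) {κ : ι → ℂ} (hO : Orb v κ)
    (hκ : (r : ℂ) + 2 * ∑ i ∈ I, κ i = 0) {p : Rx n} (hp : Inv v p) (h0 : Van v I p) (l : ℝ)
    (N : ℕ) : Ex v DD l N κ p = 0 := by
  have h1 : ∀ d : ℕ, Inv v ((L v DD κ)^[d] p) ∧ Van v I ((L v DD κ)^[d] p) := by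
    intro d
    induction d with
    | zero => exact ⟨hp, h0⟩
    | succ d ih =>
      rw [Function.iterate_succ_apply']
      exact ⟨((hDDL n ι v hv).2 DD hDD).1 κ hO _ ih.1,
        hVan n ι v hv DD hDD I r hI κ hκ _ ih.1 ih.2⟩
  rw [Ex]
  refine Finset.sum_eq_zero fun d _ => ?_
  have h2 : constantCoeff ((L v DD κ)^[d] p) = 0 := by
    have h3 := (h1 d).2 0 (by simp)
    rwa [MvPolynomial.eval_zero] at h3
  rw [h2, mul_zero]

theorem Ev_van {I : Finset ι} {j : ι} (hj : j ∈ I) {k : ι → ℕ} (hk : 1 ≤ k j) (p : Rx n) :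
    Van v I (Ev v k * p) := by
  intro x hx
  rw [map_mul, Ev, map_prod, Finset.prod_eq_zero (Finset.mem_univ j), zero_mul]
  rw [map_pow]
  have h1 : eval x (lf (v j)) = 0 := by
    rw [lf, map_sum, ← hx j hj]
    refine Finset.sum_congr rfl fun m _ => ?_
    simp
  rw [h1, zero_pow (by omega)]

/-- vanishing at the special points -/
theorem van_main (hv : IsRoots v) (hDD : IsDD v DD) (hDDL : StmDDL) (hVan : StmVan)
    (hGauss : StmGauss) (hExp : StmExp) (hPol : StmPol) {l : ℝ} (hl : 0 < l) {I : Finset ι}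
    {r : ℕ} (hI : IsPar v I r) {a k : ι → ℕ} (ha : Orb v a) (hk : Orb v k) (hka : ∀ i, k i ≤ a i)
    (hkI : ∃ i ∈ I, k i < a i) {S : ℂ}
    (hS : (r : ℂ) + 2 * ∑ i ∈ I, ((a i : ℂ) * S + 1 / 2 + k i) = 0) {p : Rx n} (hp : Inv v p)
    {N : ℕ} (hN : (Ev v a * p).totalDegree ≤ N) :
    Ex v DD l N (fun i => (a i : ℂ) * S + 1 / 2) (Ev v a * p) = 0 := by
  obtain ⟨j, hj, hkj⟩ := hkI
  have h1 : Ev v a * p = Ev v k * (Ev v (a - k) * p) := by
    rw [← mul_assoc, ← Ev_add]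
    congr 2
    funext i
    have := hka i
    simp only [Pi.add_apply, Pi.sub_apply]
    omega
  have hak : Orb v (a - k) := fun x y m h => by
    simp only [Pi.sub_apply]
    rw [ha x y m h, hk x y m h]
  have hs : Inv v (Ev v (a - k) * p) :=
    inv_mul (((hDDL n ι v hv).2 DD hDD).2.2.1 _ hak) hp
  rw [h1] at hN ⊢
  have h2 := mult hv hDD hDDL hGauss hExp hPol hl ha hk hs hN le_rfl le_rfl S 0
  have e1 : (fun i => (a i : ℂ) * S + (0 + 1 / 2)) = (fun i => (a i : ℂ) * S + 1 / 2) := by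
    funext i
    ring
  have e2 : (fun i => (a i : ℂ) * S + (0 + 1 / 2) + k i) =
      (fun i => (a i : ℂ) * S + 1 / 2 + k i) := by
    funext i
    ring
  rw [e1, e2] at h2
  rw [h2, van_gen hv hDD hDDL hVan hI ?_ hS hs (Ev_van hj (by
    simp only [Pi.sub_apply]
    omega) p), mul_zero]
  intro x y m h
  dsimp only
  rw [ha x y m h, hk x y m h]

/-- `Ex` is a polynomial in `l` -/
theorem Ex_l (v : ι → Fin n → ℝ) (DD : ι → (Rx n →ₗ[ℂ] Rx n)) (N : ℕ) (κ : ι → ℂ) (p : Rx n) :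
    ∃ P : Polynomial ℂ, (∀ l : ℝ, P.eval (l : ℂ) = Ex v DD l N κ p) ∧
      P.eval 0 = constantCoeff p := by
  refine ⟨∑ d ∈ Finset.range (N + 1), Polynomial.C (constantCoeff ((L v DD κ)^[d] p) /
    (2 ^ d * (d.factorial : ℂ))) * Polynomial.X ^ d, fun l => ?_, ?_⟩
  · rw [Polynomial.eval_finsetSum, Ex]
    refine Finset.sum_congr rfl fun d _ => ?_
    rw [Polynomial.eval_mul, Polynomial.eval_C, Polynomial.eval_pow, Polynomial.eval_X, div_pow]
    ring
  · rw [Polynomial.eval_finsetSum, Finset.sum_eq_single 0]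
    · simp
    · intro d _ hd
      simp [hd]
    · intro h
      simp at h

end

/-- The `θ_j` are basic invariants of the reflection group: they are invariant, without constant
term, generate the ring of the invariants, and their Jacobian determinant is a constant `≠ 0` times
the product of the positive roots. -/
def IsBasic {n : ℕ} {ι : Type} [Fintype ι] (v : ι → Fin n → ℝ) (θ : Fin n → Rx n) : Prop :=
  (∀ j, Inv v (θ j)) ∧ (∀ j, constantCoeff (θ j) = 0) ∧
    (∀ p, Inv v p → ∃ g : MvPolynomial (Fin n) ℂ, aeval θ g = p) ∧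
    ∃ c : ℂ, c ≠ 0 ∧ (Matrix.of fun i k => pderiv i (θ k)).det = C c * Dl v

theorem inv_aeval {n : ℕ} {ι : Type} {v : ι → Fin n → ℝ} {θ : Fin n → Rx n}
    (hθ : ∀ j, Inv v (θ j)) (g : MvPolynomial (Fin n) ℂ) : Inv v (aeval θ g) := by
  intro i
  have h : (rf (v i)).comp (aeval θ : MvPolynomial (Fin n) ℂ →ₐ[ℂ] Rx n) = aeval θ := by
    apply MvPolynomial.algHom_ext
    intro j
    rw [AlgHom.comp_apply, aeval_X, hθ j i]
  rw [← AlgHom.comp_apply, h]

theorem cc_aeval {n : ℕ} {θ : Fin n → Rx n} (hθ : ∀ j, constantCoeff (θ j) = 0)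
    (g : MvPolynomial (Fin n) ℂ) : constantCoeff (aeval θ g : Rx n) = constantCoeff g := by
  exact Pool.Agent.K3h15.DM.cc_aeval θ hθ g

/-- `p` is a sum of squares -/
theorem inv_sq {n : ℕ} {ι : Type} {v : ι → Fin n → ℝ} (hv : ∀ i, ∑ j, v i j ^ 2 = 1) :
    Inv v (∑ j, X j ^ 2 : Rx n) := by
  intro i
  have h1 : rf (v i) (∑ j, X j ^ 2 : Rx n) =
      ∑ j, (X j ^ 2 - 4 * lf (v i) * (C ((v i j : ℝ) : ℂ) * X j) +
        4 * lf (v i) ^ 2 * C (((v i j ^ 2 : ℝ)) : ℂ)) := by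
    rw [map_sum]
    refine Finset.sum_congr rfl fun j _ => ?_
    rw [map_pow, rf, aeval_X]
    push_cast
    simp only [map_mul, map_pow]
    have : (C (2 : ℂ) : Rx n) = 2 := map_ofNat C 2
    rw [this]
    ring
  rw [h1, Finset.sum_add_distrib, Finset.sum_sub_distrib, ← Finset.mul_sum, ← Finset.mul_sum,
    ← map_sum, ← Complex.ofReal_sum, hv i]
  have h2 : (∑ j, C ((v i j : ℝ) : ℂ) * X j : Rx n) = lf (v i) := rfl
  rw [h2]
  simp
  ring

section

variable {n : ℕ} {ι : Type} [Fintype ι] {v : ι → Fin n → ℝ} {θ : Fin n → Rx n}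

/-- the functional on the polynomials in the basic invariants -/
noncomputable def Lam (v : ι → Fin n → ℝ) (θ : Fin n → Rx n) (G : Rx n →ₗ[ℂ] ℂ) :
    MvPolynomial (Fin n) ℂ →ₗ[ℂ] ℂ :=
  G ∘ₗ LinearMap.mulLeft ℂ (Dl v) ∘ₗ (aeval θ : MvPolynomial (Fin n) ℂ →ₐ[ℂ] Rx n).toLinearMap

theorem Lam_apply (G : Rx n →ₗ[ℂ] ℂ) (g : MvPolynomial (Fin n) ℂ) :
    Lam v θ G g = G (Dl v * aeval θ g) := rfl

theorem ibp (hPiola : StmPiola) (hv : IsRoots v) (hθ : IsBasic v θ) {l : ℝ} (hl : 0 < l)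
    {G : Rx n →ₗ[ℂ] ℂ} (hG : IsFun v l G) {a : ι → ℕ} (ha : ∀ i, 1 ≤ a i)
    {f : MvPolynomial (Fin n) ℂ} (hf : aeval θ f = Ev v a) :
    ∃ w : Fin n → MvPolynomial (Fin n) ℂ, IsIBP f 1 w (Lam v θ G) := by
  obtain ⟨A, hA, hA'⟩ := hPiola n θ
  obtain ⟨hinv, hcc, hgen, c, hc0, hdet⟩ := hθ
  obtain ⟨ψ, hψ⟩ := hgen _ (inv_sq (v := v) hv.1)
  have hlne : (l : ℂ) ≠ 0 := by exact_mod_cast hl.ne'
  rw [hdet] at hA
  refine ⟨fun j => C (1 / (2 * (l : ℂ))) * pderiv j ψ, ?_⟩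
  intro j H hH
  rw [mul_one] at hH
  have hd : Dl v ^ 2 ∣ aeval θ H := by
    obtain ⟨H', rfl⟩ := hH
    rw [map_mul, hf]
    exact (Dl_dvd v a ha).mul_right _
  have h1 : C c * Dl v * aeval θ (pderiv j H) = ∑ i, pderiv i (A j i * aeval θ H) := by
    have h2 : ∀ i, pderiv i (A j i * aeval θ H) =
        A j i * pderiv i (aeval θ H) + pderiv i (A j i) * aeval θ H := by
      intro i
      rw [Derivation.leibniz, smul_eq_mul, smul_eq_mul]
      ring
    rw [hA, Finset.sum_congr rfl fun i _ => h2 i, Finset.sum_add_distrib, ← Finset.sum_mul,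
      hA' j, zero_mul, add_zero]
  have h3 : ∀ i, G (pderiv i (A j i * aeval θ H)) = (1 / (l : ℂ)) * G (X i * (A j i * aeval θ H))
      := by
    intro i
    rw [← hG.1 i (A j i * aeval θ H) (hd.mul_left _)]
    field_simp
  have h4 : ∑ i, X i * A j i = C (c / 2) * Dl v * aeval θ (pderiv j ψ) := by
    have h5 := hA j ψ
    rw [hψ] at h5
    have h6 : ∀ i : Fin n, pderiv i (∑ k, X k ^ 2 : Rx n) = 2 * X i := by
      intro i
      rw [map_sum, Finset.sum_eq_single i]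
      · rw [Derivation.leibniz_pow, pderiv_X_self]
        simp
      · intro k _ hk
        rw [Derivation.leibniz_pow, pderiv_X_of_ne hk]
        simp
      · intro h
        exact absurd (Finset.mem_univ i) h
    simp only [h6] at h5
    have h7 : (C (c / 2) : Rx n) = C (1 / 2) * C c := by
      rw [← map_mul]
      congr 1
      ring
    have h8 : (C (1 / 2 : ℂ) : Rx n) * 2 = 1 := by
      have : (2 : Rx n) = C 2 := (map_ofNat C 2).symm
      rw [this, ← map_mul]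
      simp
    rw [h7, mul_assoc, mul_assoc, ← mul_assoc (C c), h5, Finset.mul_sum]
    refine Finset.sum_congr rfl fun i _ => ?_
    linear_combination (-(X i * A j i)) * h8
  have hGC : ∀ (x : ℂ) (p : Rx n), x * G p = G (C x * p) := by
    intro x p
    rw [← smul_eq_mul, ← map_smul, MvPolynomial.smul_eq_C_mul]
  have h9 : c * Lam v θ G (pderiv j H) =
      c * Lam v θ G (C (1 / (2 * (l : ℂ))) * pderiv j ψ * H) := by
    rw [Lam_apply, Lam_apply, hGC, ← mul_assoc, h1, map_sum, Finset.sum_congr rfl fun i _ => h3 i,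
      ← Finset.mul_sum, ← map_sum, hGC, hGC]
    congr 1
    have h10 : ∑ i, X i * (A j i * aeval θ H) = (∑ i, X i * A j i) * aeval θ H := by
      rw [Finset.sum_mul]
      exact Finset.sum_congr rfl fun i _ => by ring
    rw [h10, h4, map_mul (aeval θ), map_mul (aeval θ), aeval_C]
    have h11 : (C (1 / (l : ℂ)) : Rx n) * C (c / 2) = C c * C (1 / (2 * (l : ℂ))) := by
      rw [← map_mul, ← map_mul]
      congr 1
      field_simp
    have h12 : (algebraMap ℂ (Rx n)) (1 / (2 * (l : ℂ))) = C (1 / (2 * (l : ℂ))) := rfl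
    rw [h12]
    linear_combination (Dl v * aeval θ (pderiv j ψ) * aeval θ H) * h11
  exact mul_left_cancel₀ hc0 h9

/-- `c(s) e g ^ s = P(s) g ^ (s + 1)` for a polynomial `e` with `e(0) ≠ 0`: the functional equations
near the origin. -/
def IsLocB (g : MvPolynomial (Fin n) ℂ) (c : Polynomial ℂ) : Prop :=
  ∃ (e : MvPolynomial (Fin n) ℂ) (P : ℕ →₀ weylS (Fin n)), constantCoeff e ≠ 0 ∧
    ∀ s : ℕ, C (c.eval (s : ℂ)) * e * g ^ s =
      P.sum fun m Q => ((s : ℂ) ^ m) • (Q : Module.End ℂ (MvPolynomial (Fin n) ℂ)) (g ^ (s + 1))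

theorem gen {DD : ι → (Rx n →ₗ[ℂ] Rx n)} (hv : IsRoots v) (hDD : IsDD v DD)
    (hPiola : StmPiola) (hGauss : StmGauss)
    (hExp : StmExp) (hPol : StmPol) (hAdj : StmAdj) (hDDL : StmDDL) (hθ : IsBasic v θ)
    {a : ι → ℕ} (ha : ∀ i, 1 ≤ a i) (hO : Orb v a) {f u : MvPolynomial (Fin n) ℂ}
    (hf : aeval θ f = Ev v a) (hu : constantCoeff u ≠ 0) {c : Polynomial ℂ}
    (hc : IsLocB (f * u) c) :
    ∃ e' : MvPolynomial (Fin n) ℂ, constantCoeff e' ≠ 0 ∧ ∀ l : ℝ, 0 < l → ∀ N : ℕ,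
      (aeval θ e' : Rx n).totalDegree ≤ N → ∀ S : ℂ,
      (∀ (r : MvPolynomial (Fin n) ℂ) (N' : ℕ),
        (Ev v a * aeval θ r).totalDegree ≤ N' →
        Ex v DD l N' (fun i => (a i : ℂ) * S + 1 / 2) (Ev v a * aeval θ r) = 0) →
      c.eval S * Ex v DD l N (fun i => (a i : ℂ) * S + 1 / 2) (aeval θ e') = 0 := by
  obtain ⟨e, P, he, hP⟩ := hc
  have hv0 : ∀ i, v i ≠ 0 := by
    intro i h
    have := hv.1 i
    rw [h] at this
    simp at this
  have hu0 : u ≠ 0 := by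
    rintro rfl
    simp at hu
  have hadj := fun m : ℕ => hAdj n f 1 u (P m : Module.End ℂ (MvPolynomial (Fin n) ℂ)) (P m).2
  choose m0 hm0 using hadj
  set M := P.support.sup m0 + 1 with hMdef
  have hM : ∀ m ∈ P.support, m0 m ≤ M := fun m hm =>
    (Finset.le_sup (f := m0) hm).trans (Nat.le_succ _)
  have hM1 : 1 ≤ M := by omega
  clear_value M
  refine ⟨e * u ^ (M - 1), ?_, ?_⟩
  · rw [map_mul, map_pow]
    exact mul_ne_zero he (pow_ne_zero _ hu)
  intro l hl N hN S hvan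
  obtain ⟨G, hG⟩ := hGauss n ι v hv0 l hl
  obtain ⟨w, hibp⟩ := ibp hPiola hv hθ hl hG ha hf
  have hB : ∀ m : ℕ, ∃ (K : ℕ) (B : ℕ → (MvPolynomial (Fin n) ℂ →ₗ[ℂ] MvPolynomial (Fin n) ℂ)),
      m ∈ P.support → 
      ∀ (s : ℕ) (H : MvPolynomial (Fin n) ℂ), ∃ W : MvPolynomial (Fin n) ℂ,
        (P m : Module.End ℂ (MvPolynomial (Fin n) ℂ)) (u ^ (s + M) * H) = u ^ s * W ∧
        ∀ (v' : MvPolynomial (Fin n) ℂ) (Λ : MvPolynomial (Fin n) ℂ →ₗ[ℂ] ℂ),
          IsIBP f 1 w Λ → f ^ M ∣ H →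
          Λ (v' * W) = Λ ((∑ k ∈ Finset.range K, ((s : ℂ) ^ k) • B k v') * H) := by
    intro m
    by_cases hm : m ∈ P.support
    · obtain ⟨K, B, _, h⟩ := hm0 m M (hM m hm) w
      refine ⟨K, B, fun _ s H => ?_⟩
      obtain ⟨W, h1, _, _, h4⟩ := h s H
      exact ⟨W, h1, fun v' Λ hΛ hH => h4 v' Λ hΛ hH (Or.inl (by simp))⟩
    · exact ⟨0, fun _ => 0, fun h => absurd h hm⟩
  choose K B hB using hB
  set q : ℕ → ℕ → Rx n := fun m k => Ev v a * aeval θ (B m k 1) with hq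
  have hinv := hθ.1
  have hqs : ∀ m k, Inv v (q m k) := fun m k =>
    inv_mul (((hDDL n ι v hv).2 DD hDD).2.2.1 a hO) (inv_aeval hinv _)
  have key : ∀ s : ℕ, M ≤ s →
      c.eval (s : ℂ) * Ex v DD l N (fun i => (a i : ℂ) * s + 1 / 2)
        (aeval θ (e * u ^ (M - 1))) =
      ∑ m ∈ P.support, ∑ k ∈ Finset.range (K m), (s : ℂ) ^ m * ((s : ℂ) + 1 - M) ^ k *
        Ex v DD l (q m k).totalDegree (fun i => (a i : ℂ) * s + 1 / 2) (q m k) := by
    intro s hs
    obtain ⟨s', hs'⟩ : ∃ s', s + 1 = s' + M := ⟨s + 1 - M, by omega⟩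
    set H : MvPolynomial (Fin n) ℂ := f ^ (s + 1) with hH
    have hfH : (f * u) ^ (s + 1) = u ^ (s' + M) * H := by
      rw [← hs', hH]
      ring
    have hFH : f ^ M ∣ H := pow_dvd_pow f (by omega)
    have hW : ∀ m : ℕ, ∃ W : MvPolynomial (Fin n) ℂ, m ∈ P.support →
        (P m : Module.End ℂ (MvPolynomial (Fin n) ℂ)) (u ^ (s' + M) * H) = u ^ s' * W ∧
        Lam v θ G W =
          Lam v θ G ((∑ k ∈ Finset.range (K m), ((s' : ℂ) ^ k) • B m k 1) * H) := by
      intro m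
      by_cases hm : m ∈ P.support
      · obtain ⟨W, h1, h4⟩ := hB m hm s' H
        refine ⟨W, fun _ => ⟨h1, ?_⟩⟩
        have := h4 1 (Lam v θ G) hibp hFH
        rwa [one_mul] at this
      · exact ⟨0, fun h => absurd h hm⟩
    choose W hW using hW
    have e1 : C (c.eval (s : ℂ)) * (e * u ^ (M - 1)) * f ^ s =
        ∑ m ∈ P.support, ((s : ℂ) ^ m) • W m := by
      have e2 := hP s
      rw [Finsupp.sum] at e2
      have e3 : ∑ m ∈ P.support, ((s : ℂ) ^ m) •
          (P m : Module.End ℂ (MvPolynomial (Fin n) ℂ)) ((f * u) ^ (s + 1)) =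
          u ^ s' * ∑ m ∈ P.support, ((s : ℂ) ^ m) • W m := by
        rw [Finset.mul_sum]
        refine Finset.sum_congr rfl fun m hm => ?_
        rw [hfH, (hW m hm).1, mul_smul_comm]
      rw [e3] at e2
      have e4 : (f * u) ^ s = u ^ s' * (u ^ (M - 1) * f ^ s) := by
        have : s = s' + (M - 1) := by omega
        rw [mul_pow, ← mul_assoc, ← pow_add, ← this]
        ring
      rw [e4] at e2
      have e5 : u ^ s' * (C (c.eval (s : ℂ)) * (e * u ^ (M - 1)) * f ^ s) =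
          u ^ s' * ∑ m ∈ P.support, ((s : ℂ) ^ m) • W m := by
        rw [← e2]
        ring
      exact mul_left_cancel₀ (pow_ne_zero _ hu0) e5
    have e6 : c.eval (s : ℂ) * Lam v θ G ((e * u ^ (M - 1)) * f ^ s) =
        ∑ m ∈ P.support, ∑ k ∈ Finset.range (K m), (s : ℂ) ^ m * (s' : ℂ) ^ k *
          Lam v θ G (B m k 1 * H) := by
      have e7 : C (c.eval (s : ℂ)) * (e * u ^ (M - 1)) * f ^ s =
          (c.eval (s : ℂ)) • ((e * u ^ (M - 1)) * f ^ s) := by
        rw [MvPolynomial.smul_eq_C_mul]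
        ring
      have e8 := congrArg (fun t => Lam v θ G t) e1
      simp only [e7, map_smul, smul_eq_mul, map_sum] at e8
      rw [e8]
      refine Finset.sum_congr rfl fun m hm => ?_
      rw [(hW m hm).2, Finset.sum_mul, map_sum, Finset.mul_sum]
      refine Finset.sum_congr rfl fun k _ => ?_
      rw [smul_mul_assoc, map_smul, smul_eq_mul, mul_assoc ((s : ℂ) ^ m)]
    have hOs : Orb v (fun i => a i * s) := fun x y m h => by
      dsimp only
      rw [hO x y m h]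
    have h1s : ∀ i, 1 ≤ a i * s := fun i => by
      have h1 := ha i
      have h2 : 1 ≤ s := by omega
      exact Nat.mul_pos h1 h2
    have e9 : ∀ p : Rx n, Inv v p → ∀ N0, p.totalDegree ≤ N0 →
        G (Dl v * Ev v (fun i => a i * s) * p) =
        G (Dl v * Ev v (fun i => a i * s)) *
          Ex v DD l N0 (fun i => (a i : ℂ) * s + 1 / 2) p := by
      intro p hp N0 hN0
      have := hExp n ι v hv DD hDD l G hl hG (fun i => a i * s) hOs h1s N0 p hp hN0
      push_cast at this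
      exact this
    have hne := hG.2 (fun i => a i * s)
    have e10 : Lam v θ G ((e * u ^ (M - 1)) * f ^ s) =
        G (Dl v * Ev v (fun i => a i * s)) *
          Ex v DD l N (fun i => (a i : ℂ) * s + 1 / 2) (aeval θ (e * u ^ (M - 1))) := by
      rw [← e9 _ (inv_aeval hinv _) N hN, Lam_apply]
      congr 1
      rw [map_mul (aeval θ) (e * u ^ (M - 1)), map_pow (aeval θ) f, hf, Ev_pow]
      ring
    have e11 : ∀ m k, Lam v θ G (B m k 1 * H) =
        G (Dl v * Ev v (fun i => a i * s)) *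
          Ex v DD l (q m k).totalDegree (fun i => (a i : ℂ) * s + 1 / 2) (q m k) := by
      intro m k
      rw [← e9 _ (hqs m k) _ le_rfl, Lam_apply]
      congr 1
      rw [hH, hq]
      dsimp only
      rw [map_mul (aeval θ), map_pow (aeval θ) f, hf, pow_succ, Ev_pow]
      ring
    rw [e10] at e6
    simp only [e11] at e6
    have hs'c : (s' : ℂ) = (s : ℂ) + 1 - M := by
      have : ((s + 1 : ℕ) : ℂ) = ((s' + M : ℕ) : ℂ) := by rw [hs']
      push_cast at this
      rw [this]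
      ring
    apply mul_left_cancel₀ hne
    calc _ = c.eval (s : ℂ) * (G (Dl v * Ev v (fun i => a i * s)) *
          Ex v DD l N (fun i => (a i : ℂ) * s + 1 / 2) (aeval θ (e * u ^ (M - 1)))) := by
            ring
      _ = _ := by
        rw [e6, Finset.mul_sum]
        refine Finset.sum_congr rfl fun m _ => ?_
        rw [Finset.mul_sum]
        refine Finset.sum_congr rfl fun k _ => ?_
        rw [hs'c]
        ring
  obtain ⟨P1, hP1⟩ := hPol n ι v DD l N (aeval θ (e * u ^ (M - 1))) (fun i => (a i : ℂ))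
    (fun _ => 1 / 2)
  have hP2 := fun m k => hPol n ι v DD l (q m k).totalDegree (q m k) (fun i => (a i : ℂ))
    (fun _ => 1 / 2)
  choose P2 hP2 using hP2
  have hpoly : c * P1 = ∑ m ∈ P.support, ∑ k ∈ Finset.range (K m),
      Polynomial.X ^ m * (Polynomial.X + Polynomial.C (1 - (M : ℂ))) ^ k * P2 m k := by
    refine poly_eq M fun s hs => ?_
    rw [Polynomial.eval_mul, hP1, key s hs, Polynomial.eval_finsetSum]
    refine Finset.sum_congr rfl fun m _ => ?_
    rw [Polynomial.eval_finsetSum]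
    refine Finset.sum_congr rfl fun k _ => ?_
    rw [Polynomial.eval_mul, hP2]
    simp only [Polynomial.eval_mul, Polynomial.eval_pow, Polynomial.eval_X, Polynomial.eval_add,
      Polynomial.eval_C]
    ring
  have h := congrArg (fun Q : Polynomial ℂ => Q.eval S) hpoly
  simp only [Polynomial.eval_mul, hP1, Polynomial.eval_finsetSum, hP2] at h
  rw [h]
  refine Finset.sum_eq_zero fun m _ => Finset.sum_eq_zero fun k _ => ?_
  rw [hvan (B m k 1) (q m k).totalDegree le_rfl, mul_zero]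

end

end Pool.Agent.K3h15.RG
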