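import Pool.Agent.K3h15.RG.Stm

/-!
# Brick PIOLA: cofactors of a Jacobian matrix (by helper79)
-/

set_option autoImplicit false

namespace Pool.Agent.K3h15.RG

open MvPolynomial

open Pool.Agent.K3h15.DM (Rx)

namespace Pi79

/-- Leibniz' rule for products -/
theorem leibniz_prod' {R : Type} [CommRing R] [Algebra ℂ R] {ι : Type} [DecidableEq ι]
    (D : Derivation ℂ R R) (s : Finset ι) (f : ι → R) :
    D (∏ i ∈ s, f i) = ∑ i ∈ s, (∏ j ∈ s.erase i, f j) * D (f i) := by
  induction s using Finset.induction_on with
  | empty => rw [Finset.prod_empty, Finset.sum_empty, Derivation.map_one_eq_zero]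
  | insert a s ha ih =>
    rw [Finset.prod_insert ha, Derivation.leibniz, Finset.sum_insert ha,
      Finset.erase_insert ha, ih, smul_eq_mul, smul_eq_mul, Finset.mul_sum, add_comm]
    congr 1
    refine Finset.sum_congr rfl fun i hi => ?_
    have hia : a ≠ i := fun h => ha (h ▸ hi)
    rw [Finset.erase_insert_of_ne hia, Finset.prod_insert (fun h => ha (Finset.mem_of_mem_erase h)),
      mul_assoc]

/-- the derivative of a determinant -/
theorem D_det {R : Type} [CommRing R] [Algebra ℂ R] {n : ℕ} (D : Derivation ℂ R R)
    (M : Matrix (Fin n) (Fin n) R) :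
    D M.det = ∑ r, (M.updateRow r (fun k => D (M r k))).det := by
  simp only [Matrix.det_apply]
  rw [map_sum, Finset.sum_comm]
  refine Finset.sum_congr rfl fun σ _ => ?_
  rw [← Finset.smul_sum]
  have h0 : D (Equiv.Perm.sign σ • ∏ i, M (σ i) i) =
      Equiv.Perm.sign σ • D (∏ i, M (σ i) i) := by
    rw [Units.smul_def, Units.smul_def, map_zsmul]
  rw [h0, leibniz_prod']
  congr 1
  rw [← Equiv.sum_comp σ (fun r => ∏ i, (M.updateRow r (fun k => D (M r k))) (σ i) i)]
  refine Finset.sum_congr rfl fun i _ => ?_
  rw [← Finset.mul_prod_erase Finset.univ _ (Finset.mem_univ i), mul_comm]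
  congr 1
  · rw [Matrix.updateRow_self]
  · refine Finset.prod_congr rfl fun j hj => ?_
    rw [Matrix.updateRow_ne (fun h => (Finset.ne_of_mem_erase hj) (σ.injective h))]

/-- two rows exchanged -/
theorem swap_rows {R : Type} [CommRing R] {n : ℕ} (M : Matrix (Fin n) (Fin n) R) (i r : Fin n)
    (hir : i ≠ r) (a b : Fin n → R) :
    ((M.updateRow r a).updateRow i b).det = - ((M.updateRow i a).updateRow r b).det := by
  have h : (M.updateRow r a).updateRow i b =
      ((M.updateRow i a).updateRow r b).submatrix (Equiv.swap i r) id := by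
    ext x y
    rw [Matrix.submatrix_apply, id]
    by_cases hx : x = i
    · subst hx
      rw [Matrix.updateRow_self, Equiv.swap_apply_left, Matrix.updateRow_self]
    · rw [Matrix.updateRow_ne hx]
      by_cases hx' : x = r
      · subst hx'
        rw [Matrix.updateRow_self, Equiv.swap_apply_right, Matrix.updateRow_ne hir,
          Matrix.updateRow_self]
      · rw [Matrix.updateRow_ne hx', Equiv.swap_apply_of_ne_of_ne hx hx', Matrix.updateRow_ne hx',
          Matrix.updateRow_ne hx]
  rw [h, Matrix.det_permute, Equiv.Perm.sign_swap hir]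
  simp

/-- partial derivatives commute -/
theorem pderiv_comm' {n : ℕ} (i j : Fin n) (p : Rx n) :
    pderiv i (pderiv j p) = pderiv j (pderiv i p) := by
  induction p using MvPolynomial.induction_on with
  | C a => rw [pderiv_C, pderiv_C, map_zero, map_zero]
  | add p q hp hq => rw [map_add, map_add, map_add, map_add, hp, hq]
  | mul_X p k hp =>
    have h1 : ∀ a b : Fin n, pderiv a (pderiv b (X k : Rx n)) = 0 := by
      intro a b
      rw [pderiv_X, Pi.single_apply]
      split_ifs
      · exact Derivation.map_one_eq_zero _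
      · exact map_zero _
    simp only [Derivation.leibniz, map_add, smul_eq_mul, h1, hp]
    ring

/-- the chain rule -/
theorem chain {n : ℕ} (θ : Fin n → Rx n) (i : Fin n) (g : MvPolynomial (Fin n) ℂ) :
    pderiv i (aeval θ g) = ∑ k, pderiv i (θ k) * aeval θ (pderiv k g) := by
  induction g using MvPolynomial.induction_on with
  | C a =>
    rw [aeval_C]
    have h1 : (algebraMap ℂ (Rx n)) a = C a := rfl
    rw [h1, pderiv_C]
    simp
  | add p q hp hq =>
    rw [map_add, map_add, hp, hq, ← Finset.sum_add_distrib]
    refine Finset.sum_congr rfl fun k _ => ?_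
    rw [map_add, map_add, mul_add]
  | mul_X p j hp =>
    rw [map_mul, aeval_X, Derivation.leibniz, hp, smul_eq_mul, smul_eq_mul]
    have h1 : ∀ k, aeval θ (pderiv k (p * X j)) =
        aeval θ p * (if k = j then 1 else 0) + θ j * aeval θ (pderiv k p) := by
      intro k
      rw [Derivation.leibniz, map_add, smul_eq_mul, smul_eq_mul, map_mul, map_mul, aeval_X,
        pderiv_X, Pi.single_apply]
      congr 2
      by_cases hkj : k = j
      · rw [if_pos hkj, if_pos hkj.symm, map_one]
      · rw [if_neg hkj, if_neg (Ne.symm hkj), map_zero]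
    simp only [h1, mul_add, Finset.sum_add_distrib]
    congr 1
    · simp only [mul_ite, mul_one, mul_zero]
      rw [Finset.sum_ite_eq' Finset.univ j, if_pos (Finset.mem_univ j), mul_comm]
    · rw [Finset.mul_sum]
      exact Finset.sum_congr rfl fun k _ => by ring

/-- the identity of Piola -/
theorem piola {n : ℕ} (θ : Fin n → Rx n) (j : Fin n) :
    ∑ i, pderiv i ((Matrix.of fun i k => pderiv i (θ k)).adjugate j i) = 0 := by
  set B : Matrix (Fin n) (Fin n) (Rx n) := Matrix.of fun i k => pderiv i (θ k) with hB
  have hBa : ∀ i k, B i k = pderiv i (θ k) := fun i k => rfl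
  let F : Fin n → Fin n → Rx n := fun i r => if i = r then 0 else
    ((B.updateRow i (Pi.single j 1)).updateRow r (fun k => pderiv i (pderiv r (θ k)))).det
  have h1 : ∀ i, pderiv i (B.adjugate j i) = ∑ r, F i r := by
    intro i
    rw [Matrix.adjugate_apply, D_det]
    refine Finset.sum_congr rfl fun r _ => ?_
    by_cases hir : i = r
    · subst hir
      simp only [F, if_true]
      apply Matrix.det_eq_zero_of_row_eq_zero i
      intro k
      rw [Matrix.updateRow_self, Matrix.updateRow_self, Pi.single_apply]
      split_ifs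
      · exact Derivation.map_one_eq_zero _
      · exact map_zero _
    · simp only [F, if_neg hir]
      congr 2
      funext k
      rw [Matrix.updateRow_ne (Ne.symm hir), hBa]
  have h2 : ∀ i r, F r i = - F i r := by
    intro i r
    by_cases hir : i = r
    · subst hir
      simp [F]
    · simp only [F, if_neg hir, if_neg (Ne.symm hir)]
      rw [swap_rows B i r hir]
      congr 3
      funext k
      exact pderiv_comm' r i (θ k)
  have h3 : ∑ i, ∑ r, F i r = - ∑ i, ∑ r, F i r := by
    conv_lhs => rw [Finset.sum_comm]
    rw [← Finset.sum_neg_distrib]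
    refine Finset.sum_congr rfl fun i _ => ?_
    rw [← Finset.sum_neg_distrib]
    exact Finset.sum_congr rfl fun r _ => h2 i r
  rw [Finset.sum_congr rfl fun i _ => h1 i]
  exact self_eq_neg.mp h3

end Pi79

theorem t_Piola : StmPiola := by
  intro n θ
  refine ⟨fun j i => (Matrix.of fun i k => pderiv i (θ k)).adjugate j i, ?_, ?_⟩
  · intro j g
    set B : Matrix (Fin n) (Fin n) (Rx n) := Matrix.of fun i k => pderiv i (θ k) with hB
    have hBa : ∀ i k, B i k = pderiv i (θ k) := fun i k => rfl
    have h : ∀ k, ∑ i, B.adjugate j i * B i k = if j = k then B.det else 0 := by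
      intro k
      have h1 := congrFun (congrFun (Matrix.adjugate_mul B) j) k
      rw [Matrix.mul_apply] at h1
      rw [h1, Matrix.smul_apply, Matrix.one_apply, smul_eq_mul, mul_ite, mul_one, mul_zero]
    simp only [Pi79.chain, Finset.mul_sum]
    rw [Finset.sum_comm]
    have h2 : ∀ k, ∑ i, B.adjugate j i * (pderiv i (θ k) * aeval θ (pderiv k g)) =
        (if j = k then B.det else 0) * aeval θ (pderiv k g) := by
      intro k
      rw [← h, Finset.sum_mul]
      refine Finset.sum_congr rfl fun i _ => ?_
      rw [hBa]
      ring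
    rw [Finset.sum_congr rfl fun k _ => h2 k]
    simp only [ite_mul, zero_mul]
    rw [Finset.sum_ite_eq Finset.univ j, if_pos (Finset.mem_univ j)]
  · intro j
    exact Pi79.piola θ j

end Pool.Agent.K3h15.RG
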