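import Pool.Agent.K3h15.RG.Stm

/-!
# Brick POL: `Ex` is a polynomial on lines
-/

set_option autoImplicit false

namespace Pool.Agent.K3h15.RG

open MvPolynomial

open Pool.Agent.K3h15.DM (Rx)

section

variable {n : ℕ} {ι : Type} [Fintype ι] (v : ι → Fin n → ℝ) (DD : ι → (Rx n →ₗ[ℂ] Rx n))

/-- the derivation `∂_j` as a linear map -/
noncomputable def pdL (j : Fin n) : Rx n →ₗ[ℂ] Rx n := (pderiv j : Derivation ℂ (Rx n) (Rx n))

/-- the Laplacian -/
noncomputable def Lap (n : ℕ) : Rx n →ₗ[ℂ] Rx n := ∑ j, pdL j ∘ₗ pdL j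

/-- `DD_i (∂_(v i) p)` -/
noncomputable def Di (i : ι) : Rx n →ₗ[ℂ] Rx n :=
  DD i ∘ₗ ∑ j, LinearMap.mulLeft ℂ (C ((v i j : ℝ) : ℂ) : Rx n) ∘ₗ pdL j

omit [Fintype ι] in
lemma Di_apply (i : ι) (p : Rx n) :
    Di v DD i p = DD i (∑ j, C ((v i j : ℝ) : ℂ) * pderiv j p) := by
  unfold Di pdL
  simp only [LinearMap.comp_apply, LinearMap.sum_apply, LinearMap.mulLeft_apply,
    Derivation.coeFn_coe]

lemma L_eq (κ : ι → ℂ) (p : Rx n) : L v DD κ p = Lap n p + ∑ i, κ i • Di v DD i p := by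
  unfold L Lap
  simp only [Di_apply, LinearMap.sum_apply, LinearMap.comp_apply]
  rfl

lemma iter_line (a b : ι → ℂ) (p : Rx n) (e : ℕ) :
    ∃ m : ℕ → Rx n, ∀ s : ℂ, (L v DD (fun i => a i * s + b i))^[e] p =
      ∑ k ∈ Finset.range (e + 1), s ^ k • m k := by
  induction e with
  | zero => exact ⟨fun _ => p, fun s => by simp⟩
  | succ e ih =>
    obtain ⟨m, h⟩ := ih
    set L0 : Rx n →ₗ[ℂ] Rx n := Lap n + ∑ i, b i • Di v DD i with hL0
    set L1 : Rx n →ₗ[ℂ] Rx n := ∑ i, a i • Di v DD i with hL1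
    have hL : ∀ (s : ℂ) (q : Rx n), L v DD (fun i => a i * s + b i) q = L0 q + s • L1 q := by
      intro s q
      rw [L_eq, hL0, hL1]
      simp only [LinearMap.add_apply, LinearMap.sum_apply, LinearMap.smul_apply, add_smul,
        Finset.sum_add_distrib, Finset.smul_sum, smul_smul, mul_comm s]
      abel
    refine ⟨fun k => (if k ≤ e then L0 (m k) else 0) + (if k = 0 then 0 else L1 (m (k - 1))), ?_⟩
    intro s
    rw [Function.iterate_succ_apply', h s, hL]
    simp only [smul_add, Finset.sum_add_distrib, map_sum, LinearMap.map_smul]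
    congr 1
    · rw [Finset.sum_range_succ _ (e + 1)]
      simp only [Nat.not_succ_le_self, if_false, smul_zero, add_zero]
      refine Finset.sum_congr rfl fun k hk => ?_
      rw [if_pos (Nat.lt_succ_iff.mp (Finset.mem_range.mp hk))]
    · rw [Finset.sum_range_succ' _ (e + 1)]
      simp only [if_true, smul_zero, add_zero, Nat.succ_ne_zero, if_false, Nat.add_sub_cancel,
        Finset.smul_sum, smul_smul, pow_succ, mul_comm s]

end

/-- brick POL -/
theorem t_Pol : StmPol := by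
  intro n ι _ v DD l N p a b
  choose m h using iter_line v DD a b p
  refine ⟨∑ e ∈ Finset.range (N + 1), Polynomial.C (((l : ℂ) / 2) ^ e / (e.factorial : ℂ)) *
    ∑ k ∈ Finset.range (e + 1), Polynomial.C (constantCoeff (m e k)) * Polynomial.X ^ k, ?_⟩
  intro s
  unfold Ex
  rw [Polynomial.eval_finsetSum]
  refine Finset.sum_congr rfl fun e _ => ?_
  rw [h e s, Polynomial.eval_mul, Polynomial.eval_C, Polynomial.eval_finsetSum, map_sum]
  congr 1
  refine Finset.sum_congr rfl fun k _ => ?_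
  rw [Polynomial.eval_mul, Polynomial.eval_C, Polynomial.eval_pow, Polynomial.eval_X,
    smul_eq_C_mul, map_mul, constantCoeff_C, mul_comm]

end Pool.Agent.K3h15.RG
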