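import Pool.Agent.K3h15.RG.Main
import Pool.Agent.K3h15.DM.Roots
import Pool.Agent.K3h15.DM.Zeta

/-! # Reflection groups: the roots of the b-functions -/

set_option autoImplicit false

namespace Pool.Agent.K3h15.RG

open MvPolynomial
open Pool.Agent.K3h15.DM (Rx StmAdj exists_l Zt pole_Zt)

section

variable {n : ℕ} {ι : Type} [Fintype ι] {v : ι → Fin n → ℝ} {θ : Fin n → Rx n}

theorem roots (hPiola : StmPiola) (hGauss : StmGauss)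
    (hExp : StmExp) (hPol : StmPol) (hAdj : StmAdj) (hDDL : StmDDL) (hVan : StmVan)
    (hv : IsRoots v) (hθ : IsBasic v θ)
    {a : ι → ℕ} (ha : ∀ i, 1 ≤ a i) (hO : Orb v a) {f u : MvPolynomial (Fin n) ℂ}
    (hf : aeval θ f = Ev v a) (hu : constantCoeff u ≠ 0) {c : Polynomial ℂ}
    (hc : IsLocB (f * u) c) {I : Finset ι} {r : ℕ} (hI : IsPar v I r) {k : ι → ℕ}
    (hk : Orb v k) (hka : ∀ i, k i ≤ a i) (hkI : ∃ i ∈ I, k i < a i) :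
    c.eval (-((r : ℂ) + ∑ i ∈ I, (1 + 2 * (k i : ℂ))) / (2 * ∑ i ∈ I, (a i : ℂ))) = 0 := by
  obtain ⟨⟨DD, hDD⟩, _⟩ := hDDL n ι v hv
  obtain ⟨e', he', hgen⟩ := gen hv hDD hPiola hGauss hExp hPol hAdj hDDL hθ ha hO hf hu hc
  have hden : (2 * ∑ i ∈ I, (a i : ℂ)) ≠ 0 := by
    have h1 : (2 * ∑ i ∈ I, a i : ℕ) ≠ 0 := by
      obtain ⟨j, hj⟩ := hI.1
      have h2 : 1 ≤ ∑ i ∈ I, a i :=
        (ha j).trans (Finset.single_le_sum (f := a) (fun i _ => Nat.zero_le _) hj)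
      omega
    have h3 : ((2 * ∑ i ∈ I, a i : ℕ) : ℂ) ≠ 0 := by exact_mod_cast h1
    push_cast at h3
    exact h3
  set S : ℂ := -((r : ℂ) + ∑ i ∈ I, (1 + 2 * (k i : ℂ))) / (2 * ∑ i ∈ I, (a i : ℂ)) with hS
  have hS' : (r : ℂ) + 2 * ∑ i ∈ I, ((a i : ℂ) * S + 1 / 2 + k i) = 0 := by
    have h1 : S * (2 * ∑ i ∈ I, (a i : ℂ)) = -((r : ℂ) + ∑ i ∈ I, (1 + 2 * (k i : ℂ))) := by
      rw [hS, div_mul_cancel₀ _ hden]
    have h2 : 2 * ∑ i ∈ I, ((a i : ℂ) * S + 1 / 2 + k i) =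
        S * (2 * ∑ i ∈ I, (a i : ℂ)) + ∑ i ∈ I, (1 + 2 * (k i : ℂ)) := by
      rw [Finset.mul_sum, Finset.mul_sum, Finset.mul_sum, ← Finset.sum_add_distrib]
      refine Finset.sum_congr rfl fun i _ => ?_
      ring
    rw [h2, h1]
    ring
  set p2 : Rx n := aeval θ e' with hp2
  have hp2c : constantCoeff p2 ≠ 0 := by
    rw [hp2, cc_aeval hθ.2.1]
    exact he'
  obtain ⟨Q2, hQ2, hQ2'⟩ := Ex_l v DD p2.totalDegree (fun i => (a i : ℂ) * S + 1 / 2) p2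
  have hQ2n : Q2 ≠ 0 := by
    intro h
    rw [h, Polynomial.eval_zero] at hQ2'
    exact hp2c hQ2'.symm
  obtain ⟨l, hl, _, hl2⟩ := exists_l (one_ne_zero (α := Polynomial ℂ)) hQ2n
  rw [hQ2] at hl2
  have h := hgen l hl p2.totalDegree le_rfl S (by
    intro r' N' hN'
    exact van_main hv hDD hDDL hVan hGauss hExp hPol hl hI hO hk hka hkI hS'
      (inv_aeval hθ.1 r') hN')
  rcases mul_eq_zero.mp h with h | h
  · exact h
  · exact absurd h hl2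

end

/-- the irreducible parabolic subsets -/
abbrev Par {n : ℕ} {ι : Type} (v : ι → Fin n → ℝ) : Type :=
  {I : Finset ι // ∃ r, IsPar v I r}

noncomputable instance {n : ℕ} {ι : Type} [Fintype ι] (v : ι → Fin n → ℝ) : Fintype (Par v) :=
  Fintype.ofFinite _

/-- `ν = r + |I|`, where `r` is the rank of the irreducible parabolic subset `I` -/
noncomputable def nuR {n : ℕ} {ι : Type} (v : ι → Fin n → ℝ) (I : Par v) : ℕ :=
  Module.finrank ℝ (Submodule.span ℝ (v '' (I.1 : Set ι))) + I.1.card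

/-- `N = 2 ∑_{i ∈ I} a_i` -/
def mulR {n : ℕ} {ι : Type} (v : ι → Fin n → ℝ) (a : ι → ℕ) (I : Par v) : ℕ :=
  2 * ∑ i ∈ I.1, a i

theorem poles {n : ℕ} {ι : Type} [Fintype ι] {v : ι → Fin n → ℝ} {a : ι → ℕ}
    (ha : ∀ i, 1 ≤ a i) {c : Polynomial ℂ}
    (h : ∀ (I : Finset ι) (r : ℕ), IsPar v I r → ∀ k : ι → ℕ, Orb v k → (∀ i, k i ≤ a i) →
      (∃ i ∈ I, k i < a i) →
      c.eval (-((r : ℂ) + ∑ i ∈ I, (1 + 2 * (k i : ℂ))) / (2 * ∑ i ∈ I, (a i : ℂ))) = 0)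
    (χ : (Par v → ℕ) →₀ ℂ) (s₀ : ℂ)
    (hs : (Zt (nuR v) (mulR v a) χ).denom.eval s₀ = 0) : c.eval s₀ = 0 := by
  obtain ⟨I, _, rfl⟩ := pole_Zt _ _ χ (fun I => by
    obtain ⟨r, hI⟩ := I.2
    have := Finset.card_pos.mpr hI.1
    rw [nuR]
    omega) s₀ hs
  obtain ⟨r, hI⟩ := I.2
  obtain ⟨j, hj⟩ := hI.1
  have h1 := h I.1 r hI (fun _ => 0) (fun _ _ _ _ => rfl) (fun _ => Nat.zero_le _)
    ⟨j, hj, ha j⟩
  have h2 : (-((nuR v I : ℕ) : ℂ) / (mulR v a I : ℕ)) =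
      -((r : ℂ) + ∑ i ∈ I.1, (1 + 2 * ((0 : ℕ) : ℂ))) / (2 * ∑ i ∈ I.1, (a i : ℂ)) := by
    rw [nuR, mulR, hI.2.2.1]
    push_cast
    simp
  rw [h2]
  exact h1

end Pool.Agent.K3h15.RG
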