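import Pool.Agent.K3h15.DM.Stm

/-!
# Discriminants of finite real reflection groups: definitions and statements of the steps
-/

set_option autoImplicit false

namespace Pool.Agent.K3h15.RG

open MvPolynomial

open Pool.Agent.K3h15.DM (Rx)

/-- the reflection of `w` in the hyperplane orthogonal to the unit vector `v` -/
def refl {n : ℕ} (v w : Fin n → ℝ) : Fin n → ℝ := fun j => w j - 2 * (∑ k, v k * w k) * v j

/-- The `± v i` are the roots (of length one) of a finite real reflection group: the set of these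
vectors is stable under the reflections in the hyperplanes orthogonal to the `v i`. -/
def IsRoots {n : ℕ} {ι : Type} (v : ι → Fin n → ℝ) : Prop :=
  (∀ i, ∑ j, v i j ^ 2 = 1) ∧ (∀ i k, v i = v k ∨ v i = -v k → i = k) ∧
    ∀ i k, ∃ m, refl (v i) (v k) = v m ∨ refl (v i) (v k) = -v m

/-- `κ` has the same value at the roots of each orbit. -/
def Orb {n : ℕ} {ι : Type} {A : Type} (v : ι → Fin n → ℝ) (κ : ι → A) : Prop :=
  ∀ i k m, (refl (v i) (v k) = v m ∨ refl (v i) (v k) = -v m) → κ k = κ m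

/-- the linear form `∑ v_j x_j` -/
noncomputable def lf {n : ℕ} (v : Fin n → ℝ) : Rx n := ∑ j, C ((v j : ℝ) : ℂ) * X j

/-- the reflection, acting on the polynomials -/
noncomputable def rf {n : ℕ} (v : Fin n → ℝ) : Rx n →ₐ[ℂ] Rx n :=
  aeval fun j => X j - C ((2 * v j : ℝ) : ℂ) * lf v

/-- the polynomials which are invariant under the reflection group -/
def Inv {n : ℕ} {ι : Type} (v : ι → Fin n → ℝ) (p : Rx n) : Prop := ∀ i, rf (v i) p = p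

/-- the product of the linear forms of the positive roots -/
noncomputable def Dl {n : ℕ} {ι : Type} [Fintype ι] (v : ι → Fin n → ℝ) : Rx n := ∏ i, lf (v i)

/-- the product of even powers of the linear forms -/
noncomputable def Ev {n : ℕ} {ι : Type} [Fintype ι] (v : ι → Fin n → ℝ) (k : ι → ℕ) : Rx n :=
  ∏ i, lf (v i) ^ (2 * k i)

/-- `I` is an irreducible parabolic subset of rank `r`: it consists of all the roots in a linear
subspace, and is not the union of two non-empty orthogonal subsets. -/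
def IsPar {n : ℕ} {ι : Type} (v : ι → Fin n → ℝ) (I : Finset ι) (r : ℕ) : Prop :=
  I.Nonempty ∧ (∀ k, v k ∈ Submodule.span ℝ (v '' (I : Set ι)) → k ∈ I) ∧
    Module.finrank ℝ (Submodule.span ℝ (v '' (I : Set ι))) = r ∧
    ∀ J : Finset ι, J ⊆ I → J.Nonempty → J ≠ I → ∃ i ∈ J, ∃ k ∈ I, k ∉ J ∧ ∑ j, v i j * v k j ≠ 0

/-- `p` vanishes on the subspace where the forms of the roots in `I` are zero. -/
def Van {n : ℕ} {ι : Type} (v : ι → Fin n → ℝ) (I : Finset ι) (p : Rx n) : Prop :=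
  ∀ x : Fin n → ℂ, (∀ i ∈ I, ∑ j, (v i j : ℂ) * x j = 0) → eval x p = 0

/-- brick PIOLA: for a polynomial map `θ`, the matrix `A` of the cofactors of the Jacobian matrix -/
def StmPiola : Prop := ∀ (n : ℕ) (θ : Fin n → Rx n), ∃ A : Fin n → Fin n → Rx n,
  (∀ (j : Fin n) (g : MvPolynomial (Fin n) ℂ),
    (Matrix.of fun i k => pderiv i (θ k)).det * aeval θ (pderiv j g) =
      ∑ i, A j i * pderiv i (aeval θ g)) ∧
  (∀ j, ∑ i, pderiv i (A j i) = 0)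

/-- `G` is the integral against `sgn (Dl x) exp (- |x| ^ 2 / (2 l))`: integration by parts, and
positivity -/
def IsFun {n : ℕ} {ι : Type} [Fintype ι] (v : ι → Fin n → ℝ) (l : ℝ) (G : Rx n →ₗ[ℂ] ℂ) : Prop :=
  (∀ (j : Fin n) (u : Rx n), Dl v ^ 2 ∣ u → (l : ℂ) * G (pderiv j u) = G (X j * u)) ∧
  ∀ k : ι → ℕ, G (Dl v * Ev v k) ≠ 0

/-- brick GAUSS -/
def StmGauss : Prop := ∀ (n : ℕ) (ι : Type) [Fintype ι] (v : ι → Fin n → ℝ), (∀ i, v i ≠ 0) →
  ∀ l : ℝ, 0 < l → ∃ G : Rx n →ₗ[ℂ] ℂ, IsFun v l G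

/-- `DD i` is the divided difference `(p - s_i p) / (v i)` -/
def IsDD {n : ℕ} {ι : Type} (v : ι → Fin n → ℝ) (DD : ι → (Rx n →ₗ[ℂ] Rx n)) : Prop :=
  ∀ i p, lf (v i) * DD i p = p - rf (v i) p

/-- the operator `L p = ∑_j ∂_j ∂_j p + ∑_i κ_i DD_i (∂_(v i) p)` (Dunkl's Laplacian) -/
noncomputable def L {n : ℕ} {ι : Type} [Fintype ι] (v : ι → Fin n → ℝ)
    (DD : ι → (Rx n →ₗ[ℂ] Rx n)) (κ : ι → ℂ) (p : Rx n) : Rx n :=
  ∑ j, pderiv j (pderiv j p) + ∑ i, κ i • DD i (∑ j, C ((v i j : ℝ) : ℂ) * pderiv j p)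

/-- brick DDL: the divided differences exist; `L` preserves the invariants and lowers the degree by
two -/
def StmDDL : Prop := ∀ (n : ℕ) (ι : Type) [Fintype ι] (v : ι → Fin n → ℝ), IsRoots v →
  (∃ DD : ι → (Rx n →ₗ[ℂ] Rx n), IsDD v DD) ∧
  ∀ DD : ι → (Rx n →ₗ[ℂ] Rx n), IsDD v DD →
    (∀ κ : ι → ℂ, Orb v κ → ∀ p, Inv v p → Inv v (L v DD κ p)) ∧
    (∀ (κ : ι → ℂ) (p : Rx n),
      (∀ d, p.IsHomogeneous (d + 2) → (L v DD κ p).IsHomogeneous d) ∧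
      (∀ d, d < 2 → p.IsHomogeneous d → L v DD κ p = 0)) ∧
    (∀ k : ι → ℕ, Orb v k → Inv v (Ev v k)) ∧
    ∀ (i : ι) (p : Rx n), Inv v p → lf (v i) * DD i (∑ j, C ((v i j : ℝ) : ℂ) * pderiv j p) =
      2 * ∑ j, C ((v i j : ℝ) : ℂ) * pderiv j p

/-- `∑_{d ≤ N} (l / 2) ^ d / d! (L ^ d p) (0)` -/
noncomputable def Ex {n : ℕ} {ι : Type} [Fintype ι] (v : ι → Fin n → ℝ)
    (DD : ι → (Rx n →ₗ[ℂ] Rx n)) (l : ℝ) (N : ℕ) (κ : ι → ℂ) (p : Rx n) : ℂ :=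
  ∑ d ∈ Finset.range (N + 1), ((l : ℂ) / 2) ^ d / (d.factorial : ℂ) *
    constantCoeff ((L v DD κ)^[d] p)

/-- brick EXP -/
def StmExp : Prop := ∀ (n : ℕ) (ι : Type) [Fintype ι] (v : ι → Fin n → ℝ), IsRoots v →
  ∀ (DD : ι → (Rx n →ₗ[ℂ] Rx n)), IsDD v DD →
  ∀ (l : ℝ) (G : Rx n →ₗ[ℂ] ℂ), 0 < l → IsFun v l G → ∀ k : ι → ℕ, Orb v k → (∀ i, 1 ≤ k i) →
  ∀ (N : ℕ) (p : Rx n), Inv v p → p.totalDegree ≤ N →
    G (Dl v * Ev v k * p) = G (Dl v * Ev v k) * Ex v DD l N (fun i => (k i : ℂ) + 1 / 2) p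

/-- brick POL: on lines `Ex` is a polynomial -/
def StmPol : Prop := ∀ (n : ℕ) (ι : Type) [Fintype ι] (v : ι → Fin n → ℝ)
  (DD : ι → (Rx n →ₗ[ℂ] Rx n)) (l : ℝ) (N : ℕ) (p : Rx n) (a b : ι → ℂ),
  ∃ P : Polynomial ℂ, ∀ s : ℂ, P.eval s = Ex v DD l N (fun i => a i * s + b i) p

/-- brick VAN: `L` preserves the invariants which vanish on the subspace of an irreducible parabolic
subset of rank `r`, if `r + 2 ∑_{i ∈ I} κ_i = 0` -/
def StmVan : Prop := ∀ (n : ℕ) (ι : Type) [Fintype ι] (v : ι → Fin n → ℝ), IsRoots v →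
  ∀ (DD : ι → (Rx n →ₗ[ℂ] Rx n)), IsDD v DD → ∀ (I : Finset ι) (r : ℕ), IsPar v I r →
  ∀ κ : ι → ℂ, (r : ℂ) + 2 * ∑ i ∈ I, κ i = 0 → ∀ p : Rx n, Inv v p → Van v I p →
    Van v I (L v DD κ p)

end Pool.Agent.K3h15.RG
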