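import Pool.Agent.K3h58.RG.Van

set_option autoImplicit false

namespace Pool.Agent.K3h15.RG

/-- brick VAN, from brick DDL -/
theorem t_Van (h : StmDDL) : StmVan := Pool.Agent.K3h58.RG.t_Van h

end Pool.Agent.K3h15.RG
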